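import Pool.Agent.StarkRQ.ArtSpec

/-!
# Artin symbols of an abelian extension which is unramified outside a set of primes of the base field

The results of `StarkRQ/ArtSpec.lean` without the hypothesis that the primes in question are
unramified over `ℚ`.
-/

set_option autoImplicit false

noncomputable section

open NumberField Pool.Agent.StarkRQ
open scoped Pointwise

namespace Pool.Agent.StarkU

/-- the prime ideal `𝔮` of `F` is unramified in `M` -/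
def UnrAt {F : Type*} (M : Type*) [Field F] [NumberField F] [Field M] [NumberField M] [Algebra F M]
    (𝔮 : Ideal (𝓞 F)) : Prop :=
  ∀ Q : Ideal (𝓞 M), Q.IsPrime → Q.comap (algebraMap (𝓞 F) (𝓞 M)) = 𝔮 →
    ¬ Q ^ 2 ∣ 𝔮.map (algebraMap (𝓞 F) (𝓞 M))

/-- the prime factors of `𝔞` are unramified in `M` -/
def UnrAll {F : Type*} (M : Type*) [Field F] [NumberField F] [Field M] [NumberField M] [Algebra F M]
    (𝔞 : Ideal (𝓞 F)) : Prop :=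
  ∀ 𝔮 : Ideal (𝓞 F), 𝔮.IsPrime → 𝔮 ≠ ⊥ → 𝔮 ∣ 𝔞 → UnrAt M 𝔮

section

variable {F M : Type*} [Field F] [NumberField F] [Field M] [NumberField M] [Algebra F M]

theorem exists_isFrobU [IsGalois F M] {𝔮 : Ideal (𝓞 F)} (h𝔮 : 𝔮.IsPrime) (h0 : 𝔮 ≠ ⊥) :
    ∃ ψ : Gal(M/F), IsFrob 𝔮 ψ := by
  obtain ⟨Q, hQ, hQ𝔮⟩ := exists_over (M := M) 𝔮
  obtain ⟨ψ, hψ⟩ := exists_cong_over h0 hQ𝔮
  exact ⟨ψ, Q, hQ, hQ𝔮, hψ⟩

/-- the inertia group of an unramified prime is trivial -/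
theorem inertia_eq_one [IsGalois F M] {𝔮 : Ideal (𝓞 F)} (h𝔮 : 𝔮.IsPrime) (h0 : 𝔮 ≠ ⊥)
    {Q : Ideal (𝓞 M)} (hQ : Q.IsPrime) (hQ𝔮 : Q.comap (algebraMap (𝓞 F) (𝓞 M)) = 𝔮)
    (hun : ¬ Q ^ 2 ∣ 𝔮.map (algebraMap (𝓞 F) (𝓞 M))) {g : Gal(M/F)}
    (hg : ∀ x : 𝓞 M, g • x - x ∈ Q) : g = 1 := by
  have hmax : 𝔮.IsMaximal := h𝔮.isMaximal h0
  have hover : Q.LiesOver 𝔮 := ⟨hQ𝔮.symm⟩
  have hmem : g ∈ Q.inertia Gal(M/F) := hg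
  have hle : 𝔮.map (algebraMap (𝓞 F) (𝓞 M)) ≤ Q ^ 1 := by
    rw [pow_one, Ideal.map_le_iff_le_comap, hQ𝔮]
  have hram : Q.ramificationIdx (𝓞 F) = 1 := by
    rw [← Ideal.ramificationIdx'_eq_ramificationIdx (p := 𝔮) (q := Q) h0]
    refine Ideal.ramificationIdx'_spec hle ?_
    intro h
    exact hun ((Ideal.dvd_iff_le).2 h)
  have hcard : Nat.card (Q.inertia Gal(M/F)) = 1 := by
    have hfin : Finite (𝓞 F ⧸ 𝔮) := Ideal.finiteQuotientOfFreeOfNeBot 𝔮 h0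
    have hfin' : Finite 𝔮.ResidueField :=
      Finite.of_surjective _ (Ideal.bijective_algebraMap_quotient_residueField 𝔮).2
    rw [Ideal.card_inertia_eq_ramificationIdxIn 𝔮 Q,
      Ideal.ramificationIdxIn_eq_ramificationIdx 𝔮 Q Gal(M/F)]
    exact hram
  have := (Nat.card_eq_one_iff_unique.mp hcard).1
  have h2 : (⟨g, hmem⟩ : Q.inertia Gal(M/F)) = 1 := Subsingleton.elim _ _
  exact congrArg Subtype.val h2

theorem isFrob_unique [IsGalois F M] (hab : ∀ σ τ : Gal(M/F), σ * τ = τ * σ) {𝔮 : Ideal (𝓞 F)}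
    (h𝔮 : 𝔮.IsPrime) (h0 : 𝔮 ≠ ⊥) (hun : UnrAt M 𝔮) {ψ ψ' : Gal(M/F)} (h : IsFrob 𝔮 ψ)
    (h' : IsFrob 𝔮 ψ') : ψ = ψ' := by
  obtain ⟨Q, hQ, hQ𝔮, hc⟩ := h
  obtain ⟨Q', hQ', hQ'𝔮, hc'⟩ := h'
  have h1 : Cong (toG F M ψ) Q (Ideal.absNorm 𝔮) := hc
  obtain ⟨ρ, hρ⟩ := exists_smul_eq_over hQ𝔮 hQ'𝔮
  have h3 := h1.conj (toG F M ρ)
  rw [hρ, ← map_inv, ← map_mul, ← map_mul, hab ρ ψ, mul_inv_cancel_right] at h3
  have h4 : ψ * ψ'⁻¹ = 1 := by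
    refine inertia_eq_one h𝔮 h0 hQ' hQ'𝔮 (hun Q' hQ' hQ'𝔮) fun x => ?_
    have e1 := Q'.sub_mem (h3 (ψ'⁻¹ • x)) (hc' (ψ'⁻¹ • x))
    rw [sub_sub_sub_cancel_right, smul_inv_smul] at e1
    rw [mul_smul]
    exact e1
  exact mul_inv_eq_one.mp h4

private theorem artU_unique [IsGalois F M] (hab : ∀ σ τ : Gal(M/F), σ * τ = τ * σ)
    {𝔞 : Ideal (𝓞 F)} (hun : UnrAll M 𝔞) {σ σ' : Gal(M/F)}
    (h : HasArtinSymbol 𝔞 σ) (h' : HasArtinSymbol 𝔞 σ') : σ = σ' := by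
  classical
  let fr : Ideal (𝓞 F) → Gal(M/F) := fun 𝔮 =>
    if h : 𝔮.IsPrime ∧ 𝔮 ≠ ⊥ then (exists_isFrobU (M := M) h.1 h.2).choose else 1
  have hfr : ∀ 𝔮 : Ideal (𝓞 F), 𝔮.IsPrime → 𝔮 ≠ ⊥ → IsFrob 𝔮 (fr 𝔮) := by
    intro 𝔮 h1 h2
    have h3 : 𝔮.IsPrime ∧ 𝔮 ≠ ⊥ := ⟨h1, h2⟩
    simp only [fr, dif_pos h3]
    exact (exists_isFrobU (M := M) h3.1 h3.2).choose_spec
  have key : ∀ l : List (Ideal (𝓞 F) × Gal(M/F)),
      (∀ x ∈ l, x.1.IsPrime ∧ x.1 ≠ ⊥ ∧ IsFrob x.1 x.2) → (l.map Prod.fst).prod = 𝔞 →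
      l.map Prod.snd = (l.map Prod.fst).map fr := by
    intro l hl hp
    rw [List.map_map]
    refine List.map_congr_left fun x hx => ?_
    obtain ⟨h1, h2, h3⟩ := hl x hx
    refine isFrob_unique hab h1 h2 (hun _ h1 h2 ?_) h3 (hfr _ h1 h2)
    rw [← hp]
    exact List.dvd_prod (List.mem_map_of_mem hx)
  obtain ⟨l, hl, hp, rfl⟩ := h
  obtain ⟨l', hl', hp', rfl⟩ := h'
  rw [key l hl hp, key l' hl' hp']
  have hperm : (l.map Prod.fst).Perm (l'.map Prod.fst) := by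
    apply perm_of_prod_eq_prod (hp.trans hp'.symm)
    · intro q hq
      obtain ⟨x, hx, rfl⟩ := List.mem_map.1 hq
      exact Ideal.prime_of_isPrime (hl x hx).2.1 (hl x hx).1
    · intro q hq
      obtain ⟨x, hx, rfl⟩ := List.mem_map.1 hq
      exact Ideal.prime_of_isPrime (hl' x hx).2.1 (hl' x hx).1
  refine (hperm.map fr).prod_eq' ?_
  exact List.pairwise_of_forall (fun a b => hab a b)

theorem artU_exists [IsGalois F M] {𝔞 : Ideal (𝓞 F)} (h0 : 𝔞 ≠ ⊥) :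
    ∃ σ : Gal(M/F), HasArtinSymbol 𝔞 σ := by
  classical
  let fr : Ideal (𝓞 F) → Gal(M/F) := fun 𝔮 =>
    if h : 𝔮.IsPrime ∧ 𝔮 ≠ ⊥ then (exists_isFrobU (M := M) h.1 h.2).choose else 1
  have hfr : ∀ 𝔮 : Ideal (𝓞 F), 𝔮.IsPrime → 𝔮 ≠ ⊥ → IsFrob 𝔮 (fr 𝔮) := by
    intro 𝔮 h1 h2
    have h3 : 𝔮.IsPrime ∧ 𝔮 ≠ ⊥ := ⟨h1, h2⟩
    simp only [fr, dif_pos h3]
    exact (exists_isFrobU (M := M) h3.1 h3.2).choose_spec
  let l : List (Ideal (𝓞 F)) := (UniqueFactorizationMonoid.normalizedFactors 𝔞).toList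
  refine ⟨_, l.map (fun 𝔮 => (𝔮, fr 𝔮)), ?_, ?_, rfl⟩
  · intro x hx
    obtain ⟨𝔮, hq, rfl⟩ := List.mem_map.1 hx
    have h1 := UniqueFactorizationMonoid.prime_of_normalized_factor 𝔮 (Multiset.mem_toList.1 hq)
    have h2 := Ideal.isPrime_of_prime h1
    exact ⟨h2, h1.ne_zero, hfr 𝔮 h2 h1.ne_zero⟩
  · rw [List.map_map]
    have h1 : (Prod.fst ∘ fun 𝔮 : Ideal (𝓞 F) => (𝔮, fr 𝔮)) = id := rfl
    rw [h1, List.map_id, Multiset.prod_toList]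
    exact (UniqueFactorizationMonoid.prod_normalizedFactors_eq h0).trans (normalize_eq 𝔞)

/-- the Artin symbol is well defined -/
theorem artU_spec [IsGalois F M] (hab : ∀ σ τ : Gal(M/F), σ * τ = τ * σ) {𝔞 : Ideal (𝓞 F)}
    (h0 : 𝔞 ≠ ⊥) (hun : UnrAll M 𝔞) (σ : Gal(M/F)) : HasArtinSymbol 𝔞 σ ↔ σ = art 𝔞 := by
  have h1 : ∃ σ : Gal(M/F), HasArtinSymbol 𝔞 σ := artU_exists h0
  have h2 : HasArtinSymbol 𝔞 (art 𝔞 : Gal(M/F)) := by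
    rw [art, dif_pos h1]
    exact h1.choose_spec
  constructor
  · intro h
    exact artU_unique hab hun h h2
  · intro h
    rw [h]
    exact h2

theorem UnrAll.of_dvd {𝔞 𝔟 : Ideal (𝓞 F)} (h : UnrAll M 𝔟) (hd : 𝔞 ∣ 𝔟) : UnrAll M 𝔞 :=
  fun 𝔮 h1 h2 h3 => h 𝔮 h1 h2 (h3.trans hd)

theorem UnrAll.mul {𝔞 𝔟 : Ideal (𝓞 F)} (h : UnrAll M 𝔞) (h' : UnrAll M 𝔟) :
    UnrAll M (𝔞 * 𝔟) := by
  intro 𝔮 h1 h2 h3
  rcases (Ideal.prime_of_isPrime h2 h1).dvd_or_dvd h3 with h4 | h4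
  · exact h 𝔮 h1 h2 h4
  · exact h' 𝔮 h1 h2 h4

omit [NumberField M] in
theorem hasArt_mul {𝔞 𝔟 : Ideal (𝓞 F)} {σ τ : Gal(M/F)} (h : HasArtinSymbol 𝔞 σ)
    (h' : HasArtinSymbol 𝔟 τ) : HasArtinSymbol (𝔞 * 𝔟) (σ * τ) := by
  obtain ⟨l, hl, rfl, rfl⟩ := h
  obtain ⟨l', hl', rfl, rfl⟩ := h'
  refine ⟨l ++ l', ?_, by rw [List.map_append, List.prod_append],
    by rw [List.map_append, List.prod_append]⟩
  intro x hx
  rcases List.mem_append.1 hx with h | h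
  · exact hl x h
  · exact hl' x h

theorem artU_mul [IsGalois F M] (hab : ∀ σ τ : Gal(M/F), σ * τ = τ * σ) {𝔞 𝔟 : Ideal (𝓞 F)}
    (h0 : 𝔞 ≠ ⊥) (h0' : 𝔟 ≠ ⊥) (hun : UnrAll M 𝔞) (hun' : UnrAll M 𝔟) :
    art (𝔞 * 𝔟) = (art 𝔞 * art 𝔟 : Gal(M/F)) := by
  have h1 : 𝔞 * 𝔟 ≠ ⊥ := by
    rw [← Ideal.zero_eq_bot] at h0 h0' ⊢
    exact mul_ne_zero h0 h0'
  symm
  refine (artU_spec hab h1 (hun.mul hun') _).1 ?_
  exact hasArt_mul ((artU_spec hab h0 hun _).2 rfl) ((artU_spec hab h0' hun' _).2 rfl)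

theorem artU_top [IsGalois F M] (hab : ∀ σ τ : Gal(M/F), σ * τ = τ * σ) :
    art (⊤ : Ideal (𝓞 F)) = (1 : Gal(M/F)) := by
  symm
  refine (artU_spec hab top_ne_bot ?_ 1).1 ⟨[], by simp, by simp, by simp⟩
  intro 𝔮 h1 _ h3
  exact absurd (top_le_iff.1 (Ideal.dvd_iff_le.1 h3)) h1.ne_top

theorem artU_prime [IsGalois F M] (hab : ∀ σ τ : Gal(M/F), σ * τ = τ * σ) {𝔮 : Ideal (𝓞 F)}
    (h𝔮 : 𝔮.IsPrime) (h0 : 𝔮 ≠ ⊥) (hun : UnrAt M 𝔮) {Q : Ideal (𝓞 M)} [Q.IsPrime]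
    (hQ : Q.comap (algebraMap (𝓞 F) (𝓞 M)) = 𝔮) :
    Cong (toG F M (art 𝔮)) Q (Ideal.absNorm 𝔮) := by
  obtain ⟨ψ, hψ⟩ := exists_cong_over (M := M) h0 hQ
  have h1 : HasArtinSymbol 𝔮 ψ := by
    refine ⟨[(𝔮, ψ)], ?_, ?_, ?_⟩
    · intro x hx
      rw [List.mem_singleton] at hx
      rw [hx]
      exact ⟨h𝔮, h0, Q, inferInstance, hQ, hψ⟩
    · simp
    · simp
  have hall : UnrAll M 𝔮 := by
    intro 𝔭 h1 h2 h3
    have h4 : 𝔭 = 𝔮 := by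
      have h5 := (Ideal.prime_of_isPrime h2 h1)
      have h6 := (Ideal.prime_of_isPrime h0 h𝔮)
      exact associated_iff_eq.1 (h5.associated_of_dvd h6 h3)
    rw [h4]
    exact hun
  rw [← (artU_spec hab h0 hall ψ).1 h1]
  exact hψ

end

end Pool.Agent.StarkU
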