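import Pool.Agent.StarkU.RamA
import Pool.Agent.StarkRQ.Coeff

/-!
# The primes which are ramified in `M` and which do not divide the modulus
-/

set_option autoImplicit false

noncomputable section

open NumberField Module Pool.Agent.StarkRQ
open scoped Pointwise

namespace Pool.Agent.StarkU

section one

variable {F M : Type*} [Field F] [NumberField F] [Field M] [NumberField M] [Algebra F M]
  [IsGalois ℚ M] [IsGalois F M]

/-- an element of the inertia group outside of `Gal(M/F)`: there is only one prime of `F` -/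
theorem comap_eq_of_inI (hF : finrank ℚ F = 2) {p : ℕ} (hp : p.Prime) {Q : Ideal (𝓞 M)}
    [Q.IsPrime] (hpQ : (p : 𝓞 M) ∈ Q) {v : Gal(M/ℚ)} (hv : InI Q v) (hvF : v ∉ fixG F M)
    {P : Ideal (𝓞 F)} (hP : P.IsPrime) (hpP : (p : 𝓞 F) ∈ P) :
    P = Q.comap (algebraMap (𝓞 F) (𝓞 M)) := by
  rcases split_two (M := M) hF hp hpQ hvF hP hpP with h | h
  · exact h
  · rw [h, hv.smul_eq]

end one

section loc

variable {K H M : Type*} [Field K] [NumberField K] [Field H] [NumberField H] [Field M]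
  [NumberField M] [Algebra K M] [Algebra K H] [Algebra H M] [IsScalarTower K H M] [IsGalois ℚ M]
  [IsGalois K M] [IsGalois K H]

omit [NumberField K] [NumberField H] [NumberField M] [IsGalois K H] [IsGalois ℚ M] [IsGalois K M] in
theorem algebraMap_comp : algebraMap (𝓞 K) (𝓞 M) =
    (algebraMap (𝓞 H) (𝓞 M)).comp (algebraMap (𝓞 K) (𝓞 H)) := by
  ext x
  change algebraMap K M (x : K) = algebraMap H M (algebraMap K H (x : K))
  rw [← IsScalarTower.algebraMap_apply K H M]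

/-- the inertia group of a prime over an unramified prime of `H/K` fixes `H` -/
theorem fix_of_inI {Q : Ideal (𝓞 M)} (hQ : Q.IsPrime) (hQ0 : Q ≠ ⊥)
    (hur : UnrAt H (Q.comap (algebraMap (𝓞 K) (𝓞 M)))) {t : Gal(M/ℚ)} (ht : InI Q t)
    (htK : t ∈ fixG K M) (y : H) : t (algebraMap H M y) = algebraMap H M y := by
  obtain ⟨s, rfl⟩ := htK
  set QH : Ideal (𝓞 H) := Q.comap (algebraMap (𝓞 H) (𝓞 M)) with hQH
  have hQHp : QH.IsPrime := Ideal.comap_isPrime _ _
  have hc : QH.comap (algebraMap (𝓞 K) (𝓞 H)) = Q.comap (algebraMap (𝓞 K) (𝓞 M)) := by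
    rw [hQH, Ideal.comap_comap, ← algebraMap_comp]
  have h0 : Q.comap (algebraMap (𝓞 K) (𝓞 M)) ≠ ⊥ := fun h =>
    hQ0 (Ideal.eq_bot_of_comap_eq_bot h)
  have h1 : AlgEquiv.restrictNormalHom H s = 1 := by
    refine inertia_eq_one (F := K) (M := H) (𝔮 := Q.comap (algebraMap (𝓞 K) (𝓞 M)))
      (Ideal.comap_isPrime _ _) h0 hQHp hc (hur QH hQHp hc) fun x => ?_
    rw [hQH, Ideal.mem_comap, map_sub]
    have h2 : algebraMap (𝓞 H) (𝓞 M) (AlgEquiv.restrictNormalHom H s • x) =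
        toG K M s • algebraMap (𝓞 H) (𝓞 M) x := by
      apply RingOfIntegers.ext
      change algebraMap H M ((AlgEquiv.restrictNormalHom H s) (x : H)) = s (algebraMap H M (x : H))
      exact AlgEquiv.restrictNormal_commutes s H (x : H)
    rw [h2]
    exact ht _
  have h3 : algebraMap H M (AlgEquiv.restrictNormalHom H s y) = s (algebraMap H M y) :=
    AlgEquiv.restrictNormal_commutes s H y
  rw [toG_apply, ← h3, h1]
  rfl

end loc

section main

variable {K k H M : Type*} [Field K] [NumberField K] [Field k] [NumberField k] [Field H]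
  [NumberField H] [Field M] [NumberField M] [Algebra K M] [Algebra k M] [Algebra K H]
  [Algebra H M] [IsScalarTower K H M] [IsGalois ℚ M] [IsGalois K M] [IsGalois k M] [IsGalois K H]

/-- the hypotheses of the comparison: `M` is the Galois closure of the real field `H` -/
structure CData (K k H : Type*) {M : Type*} [Field K] [NumberField K] [Field k] [NumberField k]
    [Field H] [NumberField H] [Field M] [NumberField M] [Algebra K M] [Algebra k M] [Algebra K H]
    [Algebra H M] (z c : Gal(M/ℚ)) (m : Ideal (𝓞 K)) : Prop where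
  hK : finrank ℚ K = 2
  hk : finrank ℚ k = 2
  hz : ZData (fixG K M) (fixG k M) z
  hz1 : z ≠ 1
  hcK : c ∈ fixG K M
  hck : c ∉ fixG k M
  hC : ∀ g : Gal(M/ℚ), (∀ y : H, g (algebraMap H M y) = algebraMap H M y) → g = 1 ∨ g = c
  hur : ∀ 𝔮 : Ideal (𝓞 K), 𝔮.IsPrime → 𝔮 ≠ ⊥ → IsCoprime 𝔮 m → UnrAt H 𝔮
  hb : ∀ p : ℕ, p.Prime → (p : ℤ) ∣ discr K → ¬ (p : ℤ) ∣ discr k → ∀ 𝔮 : Ideal (𝓞 K),
    𝔮.IsPrime → (p : 𝓞 K) ∈ 𝔮 → ¬ IsCoprime 𝔮 m

variable {z c : Gal(M/ℚ)} {m : Ideal (𝓞 K)}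

omit [IsGalois k M] in
theorem CData.inertia (h : CData K k H z c m) {p : ℕ} (hp : p.Prime) {Q : Ideal (𝓞 M)}
    (hQ : Q.IsPrime) (hpQ : (p : 𝓞 M) ∈ Q)
    (hco : IsCoprime (Q.comap (algebraMap (𝓞 K) (𝓞 M))) m) {t : Gal(M/ℚ)} (ht : InI Q t)
    (htK : t ∈ fixG K M) : t = 1 ∨ t = c := by
  have hQ0 := prime_ne_bot hp hpQ
  refine h.hC t (fix_of_inI hQ hQ0 (h.hur _ (Ideal.comap_isPrime _ _) ?_ hco) ht htK)
  exact fun h1 => hQ0 (Ideal.eq_bot_of_comap_eq_bot h1)

omit [IsGalois k M] [IsGalois K H] [IsScalarTower K H M] [IsGalois ℚ M] [IsGalois K M] in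
theorem CData.zc_ne (h : CData K k H z c m) : ¬ (z * c = 1 ∨ z * c = c) := by
  rintro (h1 | h1)
  · apply h.hck
    have h2 : c = z := by
      have h3 : z * (z * c) = z := by rw [h1, mul_one]
      rwa [← mul_assoc, h.hz.sq, one_mul] at h3
    rw [h2]
    exact h.hz.mem_B
  · exact h.hz1 (mul_eq_right.1 h1)

/-- the local structure at a ramified prime -/
theorem CData.local (h : CData K k H z c m) {p : ℕ} (hp : p.Prime) {Q : Ideal (𝓞 M)}
    [hQ : Q.IsPrime] (hpQ : (p : 𝓞 M) ∈ Q)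
    (hco : IsCoprime (Q.comap (algebraMap (𝓞 K) (𝓞 M))) m) (hd : (p : ℤ) ∣ discr M) :
    (∃ β : Gal(M/ℚ), β ∈ fixG K M ∧ β ∈ fixG k M ∧ Cong β Q p) ∧
    (∀ P : Ideal (𝓞 k), P.IsPrime → (p : 𝓞 k) ∈ P → P = Q.comap (algebraMap (𝓞 k) (𝓞 M))) ∧
    (∀ 𝔮 : Ideal (𝓞 K), 𝔮.IsPrime → (p : 𝓞 K) ∈ 𝔮 → IsCoprime 𝔮 m →
      𝔮 = Q.comap (algebraMap (𝓞 K) (𝓞 M))) ∧
    ∀ t, InI Q t → t ∈ fixG k M → t = 1 := by
  have hiA : (fixG K M).index = 2 := fixG_index (M := M) h.hK
  have hiB : (fixG k M).index = 2 := fixG_index (M := M) h.hk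
  have hzz := h.hz.sq
  have hzc : ∀ g, z * g = g * z := h.hz.central z h.hz.mem_A h.hz.mem_B
  obtain ⟨φ, hφ⟩ := exists_cong hp hpQ
  have hφQ : φ • Q = Q := cong_smul_eq hp hpQ hp.ne_zero hφ
  by_cases hcase : ∀ t, InI Q t → t ∈ fixG K M → t = 1
  · -- the inertia group has order two and is not contained in `Gal(M/K)`
    obtain ⟨t, ht, ht1⟩ := exists_inI_ne_one hp hpQ hd
    have htA : t ∉ fixG K M := fun h1 => ht1 (hcase t ht h1)
    have hI : ∀ u, InI Q u → u ∉ fixG K M → u = t := by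
      intro u hu huA
      have h1 : u * t⁻¹ ∈ fixG K M := mul_mem_of_index_two hiA huA
        (fun h2 => htA (by simpa using (fixG K M).inv_mem h2))
      exact mul_inv_eq_one.1 (hcase _ (hu.mul ht.inv) h1)
    have hdK : (p : ℤ) ∣ discr K := dvd_discr_of_inI hp hpQ ht htA
    have hdk : (p : ℤ) ∣ discr k := by
      by_contra hcon
      refine h.hb p hp hdK hcon _ (Ideal.comap_isPrime _ _) ?_ hco
      rw [Ideal.mem_comap, map_natCast]
      exact hpQ
    obtain ⟨t', ht', ht'B⟩ := exists_inI_of_dvd_discr (F := k) h.hk hp hpQ hdk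
    have htB : t ∉ fixG k M := by
      have h1 : t' ∉ fixG K M := fun h2 => by
        rw [hcase t' ht' h2] at ht'B
        exact ht'B (fixG k M).one_mem
      rwa [hI t' ht' h1] at ht'B
    have htt : t * t = 1 := hcase _ (ht.mul ht) (mul_mem_of_index_two hiA htA htA)
    refine ⟨?_, fun P hP hpP => comap_eq_of_inI h.hk hp hpQ ht htB hP hpP,
      fun 𝔮 h𝔮 hp𝔮 _ => comap_eq_of_inI h.hK hp hpQ ht htA h𝔮 hp𝔮, ?_⟩
    · obtain ⟨β, hβA, hβ⟩ : ∃ β : Gal(M/ℚ), β ∈ fixG K M ∧ Cong β Q p := by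
        by_cases hφA : φ ∈ fixG K M
        · exact ⟨φ, hφA, hφ⟩
        · refine ⟨φ * t, mul_mem_of_index_two hiA hφA htA, ?_⟩
          have := hφ.mul (inI_iff.1 ht)
          rwa [mul_one] at this
      refine ⟨β, hβA, ?_, hβ⟩
      by_contra hβB
      have hβQ : β • Q = Q := cong_smul_eq hp hpQ hp.ne_zero hβ
      have h1 : InI Q (β * t * β⁻¹) := by
        have := ht.conj β
        rwa [hβQ] at this
      have h2 : β * t * β⁻¹ ∉ fixG K M := by
        have hnor : (fixG K M).Normal := Subgroup.normal_of_index_eq_two hiA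
        intro h3
        apply htA
        have := hnor.conj_mem _ h3 β⁻¹
        rwa [inv_inv, show β⁻¹ * (β * t * β⁻¹) * β = t by group] at this
      have h3 : β * t = t * β := by
        have h4 := hI _ h1 h2
        exact mul_inv_eq_iff_eq_mul.1 h4
      have h5 := h.hz.conjA β hβA hβB t htA
      rw [← h3, mul_inv_cancel_right] at h5
      exact h.hz1 (mul_eq_right.1 h5.symm)
    · intro u hu huB
      by_cases huA : u ∈ fixG K M
      · exact hcase u hu huA
      · rw [hI u hu huA] at huB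
        exact absurd huB htB
  · -- the inertia group is generated by `c`
    push Not at hcase
    obtain ⟨u, hu, huA, hu1⟩ := hcase
    have huc : u = c := (h.inertia hp hQ hpQ hco hu huA).resolve_left hu1
    subst huc
    have hconj : ∀ γ, γ ∉ fixG K M → γ * u * γ⁻¹ = z * u := fun γ hγ =>
      h.hz.conjA u h.hcK h.hck γ hγ
    have hzuA : z * u ∈ fixG K M := (fixG K M).mul_mem h.hz.mem_A h.hcK
    have hIA : ∀ v, v • Q = Q → v ∈ fixG K M := by
      intro v hv
      by_contra hvA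
      have h1 := hu.conj v
      rw [hv, hconj v hvA] at h1
      exact h.zc_ne (h.inertia hp hQ hpQ hco h1 hzuA)
    have hφA : φ ∈ fixG K M := hIA φ hφQ
    refine ⟨?_, fun P hP hpP => comap_eq_of_inI h.hk hp hpQ hu h.hck hP hpP, ?_, ?_⟩
    · by_cases hφB : φ ∈ fixG k M
      · exact ⟨φ, hφA, hφB, hφ⟩
      · refine ⟨φ * u, (fixG K M).mul_mem hφA huA, mul_mem_of_index_two hiB hφB h.hck, ?_⟩
        have := hφ.mul (inI_iff.1 hu)
        rwa [mul_one] at this
    · intro 𝔮 h𝔮 hp𝔮 hco'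
      obtain ⟨Q', hQ', hQ'𝔮⟩ := exists_over (M := M) 𝔮
      have hpQ' : (p : 𝓞 M) ∈ Q' := by
        rw [← hQ'𝔮, Ideal.mem_comap, map_natCast] at hp𝔮
        exact hp𝔮
      obtain ⟨γ, hγ⟩ := exists_smul_eq hp hpQ hpQ'
      have hγA : γ ∈ fixG K M := by
        by_contra hγA
        have h1 := hu.conj γ
        rw [hγ, hconj γ hγA] at h1
        exact h.zc_ne (h.inertia hp hQ' hpQ' (by rw [hQ'𝔮]; exact hco') h1 hzuA)
      rw [← hQ'𝔮, ← hγ, split_comap hγA]
    · intro v hv hvB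
      rcases h.inertia hp hQ hpQ hco hv (hIA v hv.smul_eq) with h1 | h1
      · exact h1
      · rw [h1] at hvB
        exact absurd hvB h.hck

/-- the primes of `k` are unramified in `M` unless all primes of `K` over the same prime number
divide `m` -/
theorem CData.unrAt (h : CData K k H z c m) {p : ℕ} (hp : p.Prime) {𝔮 : Ideal (𝓞 K)}
    (h𝔮 : 𝔮.IsPrime) (hp𝔮 : (p : 𝓞 K) ∈ 𝔮) (hco : IsCoprime 𝔮 m) {P : Ideal (𝓞 k)}
    (hpP : (p : 𝓞 k) ∈ P) : UnrAt M P := by
  refine unrAt_of_inI (split_ne_bot hp hpP) ?_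
  intro Q hQ hQP t ht htB
  have hpQ : (p : 𝓞 M) ∈ Q := by
    rw [← hQP, Ideal.mem_comap, map_natCast] at hpP
    exact hpP
  by_cases hd : (p : ℤ) ∣ discr M
  · obtain ⟨Q', hQ', hQ'𝔮⟩ := exists_over (M := M) 𝔮
    have hpQ' : (p : 𝓞 M) ∈ Q' := by
      rw [← hQ'𝔮, Ideal.mem_comap, map_natCast] at hp𝔮
      exact hp𝔮
    obtain ⟨-, -, -, h4⟩ := h.local hp hpQ' (by rw [hQ'𝔮]; exact hco) hd
    obtain ⟨γ, hγ⟩ := exists_smul_eq hp hpQ hpQ'
    have h1 := ht.conj γ
    rw [hγ] at h1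
    have hnor : (fixG k M).Normal := Subgroup.normal_of_index_eq_two (fixG_index (M := M) h.hk)
    have h2 := h4 _ h1 (hnor.conj_mem _ htB γ)
    have h3 : t = γ⁻¹ * (γ * t * γ⁻¹) * γ := by group
    rw [h3, h2]
    group
  · exact Cong.unique hp hd hpQ (inI_iff.1 ht) (Cong.one Q)

end main

end Pool.Agent.StarkU
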