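import Pool.Agent.HeckeM.Literal
import Pool.Agent.HeckeRQ.ConjS
import Pool.Agent.CMR.RMain

/-!
# The partial zeta functions of `H/K` with an ideal `m` of `K`: continuation and functional values

The hypothesis about complex conjugation in `HeckeM.literalM` is a consequence of Artin reciprocity
for `M/k`.
-/

set_option autoImplicit false

noncomputable section

open NumberField Module Pool.Agent.StarkRQ Pool.Agent.HeckeM

namespace Pool.Agent.StarkU

/-- Continuation of the partial zeta functions, for an arbitrary field `M`. -/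
theorem exists_G {M : Type} [Field M] [NumberField M] [IsGalois ℚ M]
    {K k H : Type} [Field K] [NumberField K] [Field k] [NumberField k] [Field H] [NumberField H]
    [Algebra K M] [Algebra k M] [Algebra K H] [Algebra H M] [IsScalarTower K H M]
    [IsTotallyReal K] [IsTotallyComplex k] (hK : finrank ℚ K = 2) (hk : finrank ℚ k = 2)
    [IsAbelianGalois K M] [IsAbelianGalois k M] (ι : M →+* ℂ)
    (hH : ∀ y : H, (ι (algebraMap H M y)).im = 0)
    (ι₂ : K →+* ℝ) (hι₂ : ∃ x : K, ((ι₂ x : ℝ) : ℂ) ≠ ι (algebraMap K M x))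
    {m : Ideal (𝓞 K)} (h0 : m ≠ ⊥) (h1 : m ≠ ⊤)
    (hur : ∀ 𝔓 : Ideal (𝓞 H), 𝔓.IsPrime → 𝔓 ≠ ⊥ →
      IsCoprime (𝔓.comap (algebraMap (𝓞 K) (𝓞 H))) m →
      ¬ 𝔓 ^ 2 ∣ (𝔓.comap (algebraMap (𝓞 K) (𝓞 H))).map (algebraMap (𝓞 K) (𝓞 H)))
    (hmod : ∀ α : 𝓞 K, α - 1 ∈ m → 0 < ι₂ (α : K) →
      HasArtinSymbol (Ideal.span {α}) (1 : Gal(H/K))) :
    ∃ G : Gal(H/K) → ℂ → ℂ, (∀ σ, IsPZ m σ (G σ)) ∧
      ∀ R : Gal(H/K), (∀ g : H →+* ℂ, (∃ x : K, g (algebraMap K H x) ≠ ι (algebraMap K M x)) →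
        ∀ y, g (R y) = starRingEnd ℂ (g y)) →
      ∀ σ, G σ 0 + G (R * σ) 0 = 0 ∧ deriv (G σ) 0 + deriv (G (R * σ)) 0 = 0 := by
  have habH : IsAbelianGalois K H := IsAbelianGalois.tower_bot K H M
  have hKM : ∀ x : K, ι (algebraMap H M (algebraMap K H x)) = ι (algebraMap K M x) := fun x => by
    rw [← IsScalarTower.algebraMap_apply K H M]
  have hn0 : Ideal.absNorm m ≠ 0 := by
    rw [Ne, Ideal.absNorm_eq_zero_iff]
    exact h0
  have hn1 : Ideal.absNorm m ≠ 1 := by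
    rw [Ne, Ideal.absNorm_eq_one_iff]
    exact h1
  have hd0 : (discr M).natAbs ≠ 0 := by
    rw [Ne, Int.natAbs_eq_zero]
    exact discr_ne_zero M
  set N := Ideal.absNorm m * (discr M).natAbs with hNdef
  have hN : 2 ≤ N := by
    have h2 : 2 ≤ Ideal.absNorm m := by omega
    have h3 : 1 ≤ (discr M).natAbs := by omega
    calc 2 = 2 * 1 := rfl
      _ ≤ _ := Nat.mul_le_mul h2 h3
  have hram : ∀ p : ℕ, p.Prime → (p : ℤ) ∣ discr M → p ∣ N := fun p _ h =>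
    (Int.natCast_dvd.1 h).trans (Dvd.intro_left _ rfl)
  obtain ⟨a, ha, hm⟩ := CMR.exists_mod (M := M) (k := k) ⟨hk, inferInstance⟩ hN hram
  have hNa : N ∣ N ^ a := dvd_pow_self N (by omega)
  have hNm : ((N ^ a : ℕ) : 𝓞 K) ∈ m := by
    have h2 : ((Ideal.absNorm m : ℕ) : 𝓞 K) ∈ m := Ideal.absNorm_mem m
    obtain ⟨c, hc⟩ := (Dvd.intro _ rfl : Ideal.absNorm m ∣ N).trans hNa
    rw [hc, Nat.cast_mul]
    exact m.mul_mem_right _ h2
  obtain ⟨G, hG, hG'⟩ := literalM (K := K) (H := H) hK (ι.comp (algebraMap H M)) hH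
    (ι₂ := ι₂) (by
      obtain ⟨x, hx⟩ := hι₂
      exact ⟨x, by rw [RingHom.comp_apply, hKM]; exact hx⟩) h0 h1 hur hmod
    (fun R' hR' g hg y => HeckeRQ.artin_conj_s (M := M) (k := k) hK hk ι hH
      (N := N ^ a) (fun p hp' h => (hram p hp' h).trans hNa)
      (pow_ne_zero _ (by omega)) hm.artin ι₂ hι₂
      (R := R') (fun α h2 h3 => hR' α (by
        obtain ⟨c, hc⟩ := h2
        rw [hc]
        exact m.mul_mem_right _ hNm) h3) (by
      obtain ⟨x, hx⟩ := hg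
      exact ⟨x, by rw [RingHom.comp_apply, hKM] at hx; exact hx⟩) y)
  refine ⟨G, hG, fun R hR σ => hG' R (fun g hg => hR g ?_) σ⟩
  obtain ⟨x, hx⟩ := hg
  exact ⟨x, by rw [RingHom.comp_apply, hKM] at hx; exact hx⟩

end Pool.Agent.StarkU
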