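import Pool.Agent.StarkU.ShintaniU
import Pool.Agent.StarkU.LitG
import Pool.Agent.CMU.RMain

/-!
The conjecture for the exact set of primes, for the Galois closure `M` of `H`.
-/

set_option autoImplicit false

noncomputable section

open NumberField Module Pool.Agent.StarkRQ Pool.Agent.HeckeM
open Pool.Agent.CMR (Unr Prm)

namespace Pool.Agent.StarkU

theorem not_isCoprime_iff {F : Type*} [Field F] [NumberField F] {𝔮 m : Ideal (𝓞 F)}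
    (h𝔮 : 𝔮.IsPrime) (h0 : 𝔮 ≠ ⊥) : ¬ IsCoprime 𝔮 m ↔ 𝔮 ∣ m := by
  have hmax : 𝔮.IsMaximal := h𝔮.isMaximal h0
  rw [Ideal.dvd_iff_le, Ideal.isCoprime_iff_sup_eq]
  constructor
  · intro h
    by_contra hle
    exact h (hmax.out.2 _ (lt_of_le_of_ne le_sup_left fun h1 => hle (h1 ▸ le_sup_right)))
  · intro h h1
    rw [sup_eq_left.2 h] at h1
    exact h𝔮.ne_top h1

/-- the number whose prime factors are the prime numbers over which all primes divide `m` -/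
theorem exists_N {K H : Type} [Field K] [NumberField K] [Field H] [NumberField H] [Algebra K H]
    {m : Ideal (𝓞 K)} (h0 : m ≠ ⊥)
    (ha : ∃ p : ℕ, p.Prime ∧ ∀ 𝔮 : Ideal (𝓞 K), 𝔮.IsPrime → (p : 𝓞 K) ∈ 𝔮 → 𝔮 ∣ m)
    (hc : ∀ 𝔮 𝔮' : Ideal (𝓞 K), 𝔮.IsPrime → 𝔮'.IsPrime → 𝔮 ∣ m → ¬ 𝔮' ∣ m →
      (∃ p : ℕ, p.Prime ∧ (p : 𝓞 K) ∈ 𝔮 ∧ (p : 𝓞 K) ∈ 𝔮') →
      ∃ 𝔓 : Ideal (𝓞 H), 𝔓.IsPrime ∧ 𝔓.comap (algebraMap (𝓞 K) (𝓞 H)) = 𝔮 ∧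
        𝔓 ^ 2 ∣ 𝔮.map (algebraMap (𝓞 K) (𝓞 H))) :
    ∃ N : ℕ, 2 ≤ N ∧ CData2 H m N := by
  classical
  set S : Finset ℕ := (Ideal.absNorm m).primeFactors.filter fun p =>
    ∀ 𝔮 : Ideal (𝓞 K), 𝔮.IsPrime → (p : 𝓞 K) ∈ 𝔮 → ¬ IsCoprime 𝔮 m with hS
  have hm0 : Ideal.absNorm m ≠ 0 := fun h => h0 (Ideal.absNorm_eq_zero_iff.1 h)
  have hN0 : ∏ p ∈ S, p ≠ 0 := by
    rw [Finset.prod_ne_zero_iff]
    intro p hp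
    rw [hS, Finset.mem_filter] at hp
    exact (Nat.prime_of_mem_primeFactors hp.1).ne_zero
  have hN : ∀ p : ℕ, p.Prime → (p ∣ ∏ p ∈ S, p ↔ ∀ 𝔮 : Ideal (𝓞 K), 𝔮.IsPrime →
      (p : 𝓞 K) ∈ 𝔮 → ¬ IsCoprime 𝔮 m) := by
    intro p hp
    constructor
    · intro h
      obtain ⟨l, hl, hpl⟩ := (hp.prime.dvd_finsetProd_iff _).1 h
      rw [hS, Finset.mem_filter] at hl
      have h1 := (Nat.prime_dvd_prime_iff_eq hp (Nat.prime_of_mem_primeFactors hl.1)).1 hpl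
      rw [h1]
      exact hl.2
    · intro h
      apply Finset.dvd_prod_of_mem
      rw [hS, Finset.mem_filter]
      refine ⟨?_, h⟩
      obtain ⟨𝔮, h𝔮, hp𝔮⟩ := exists_prime_over (M := K) hp
      have hq0 := split_ne_bot hp hp𝔮
      have h1 := (not_isCoprime_iff h𝔮 hq0).1 (h 𝔮 h𝔮 hp𝔮)
      obtain ⟨l, hl, hld, hlq⟩ := exists_prime_factor h𝔮 hq0
      have h2 : Ideal.absNorm 𝔮 ∣ p ^ finrank ℤ (𝓞 K) := by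
        have := Ideal.absNorm_dvd_absNorm_of_le
          ((Ideal.span_singleton_le_iff_mem (I := 𝔮) (x := (p : 𝓞 K))).2 hp𝔮)
        rwa [Ideal.absNorm_span_natCast] at this
      have h3 : l = p := (Nat.prime_dvd_prime_iff_eq hl hp).1 (hl.dvd_of_dvd_pow (hld.trans h2))
      rw [Nat.mem_primeFactors]
      exact ⟨hp, h3 ▸ hld.trans (map_dvd Ideal.absNorm h1), hm0⟩
  obtain ⟨p, hp, hpa⟩ := ha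
  refine ⟨∏ p ∈ S, p, ?_, h0, hN0, hN, ?_⟩
  · have h1 : p ∣ ∏ p ∈ S, p := (hN p hp).2 fun 𝔮 h𝔮 hp𝔮 =>
      (not_isCoprime_iff h𝔮 (split_ne_bot hp hp𝔮)).2 (hpa 𝔮 h𝔮 hp𝔮)
    exact hp.two_le.trans (Nat.le_of_dvd (Nat.pos_of_ne_zero hN0) h1)
  · intro p hp 𝔮 𝔮' h𝔮 h𝔮' hp𝔮 hp𝔮' h1 h2 h3
    obtain ⟨𝔓, h4, h5, h6⟩ := hc 𝔮 𝔮' h𝔮 h𝔮' ((not_isCoprime_iff h𝔮 (split_ne_bot hp hp𝔮)).1 h1)
      (fun h4 => (not_isCoprime_iff h𝔮' (split_ne_bot hp hp𝔮')).2 h4 h2) ⟨p, hp, hp𝔮, hp𝔮'⟩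
    exact h3 𝔓 h4 h5 h6

/-- the conjecture for the exact set of primes, if `M` is the Galois closure of `H` -/
theorem exact_closure {M : Type} [Field M] [NumberField M] [IsGalois ℚ M]
    {K k H : Type} [Field K] [NumberField K] [Field k] [NumberField k] [Field H] [NumberField H]
    [Algebra K M] [Algebra k M] [Algebra K H] [Algebra H M] [IsScalarTower K H M]
    [IsTotallyReal K] [IsTotallyComplex k] (hK : finrank ℚ K = 2) (hk : finrank ℚ k = 2)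
    [IsAbelianGalois K M] [IsAbelianGalois k M] (ι : M →+* ℂ)
    (hH : ∀ y : H, (ι (algebraMap H M y)).im = 0)
    (hcl : ∀ g : Gal(M/ℚ), (∀ (γ : Gal(M/ℚ)) (y : H),
      g (γ (algebraMap H M y)) = γ (algebraMap H M y)) → g = 1)
    (ι₂ : K →+* ℝ) (hι₂ : ∃ x : K, ((ι₂ x : ℝ) : ℂ) ≠ ι (algebraMap K M x))
    {m : Ideal (𝓞 K)} (h0 : m ≠ ⊥)
    (hur : ∀ 𝔓 : Ideal (𝓞 H), 𝔓.IsPrime → 𝔓 ≠ ⊥ →
      ¬ 𝔓.comap (algebraMap (𝓞 K) (𝓞 H)) ∣ m →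
      ¬ 𝔓 ^ 2 ∣ (𝔓.comap (algebraMap (𝓞 K) (𝓞 H))).map (algebraMap (𝓞 K) (𝓞 H)))
    (hmod : ∀ α : 𝓞 K, α - 1 ∈ m → 0 < ι₂ (α : K) →
      HasArtinSymbol (Ideal.span {α}) (1 : Gal(H/K)))
    (ha : ∃ p : ℕ, p.Prime ∧ ∀ 𝔮 : Ideal (𝓞 K), 𝔮.IsPrime → (p : 𝓞 K) ∈ 𝔮 → 𝔮 ∣ m)
    (hb : ∀ p : ℕ, p.Prime → (p : ℤ) ∣ discr K → ¬ (p : ℤ) ∣ discr k → ∀ 𝔮 : Ideal (𝓞 K),
      𝔮.IsPrime → (p : 𝓞 K) ∈ 𝔮 → 𝔮 ∣ m)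
    (hc : ∀ 𝔮 𝔮' : Ideal (𝓞 K), 𝔮.IsPrime → 𝔮'.IsPrime → 𝔮 ∣ m → ¬ 𝔮' ∣ m →
      (∃ p : ℕ, p.Prime ∧ (p : 𝓞 K) ∈ 𝔮 ∧ (p : 𝓞 K) ∈ 𝔮') →
      ∃ 𝔓 : Ideal (𝓞 H), 𝔓.IsPrime ∧ 𝔓.comap (algebraMap (𝓞 K) (𝓞 H)) = 𝔮 ∧
        𝔓 ^ 2 ∣ 𝔮.map (algebraMap (𝓞 K) (𝓞 H))) :
    ∃ (Z : Gal(H/K) → ℂ → ℂ) (ε : Gal(H/K) → (𝓞 H)ˣ),
      (∀ σ, IsPZ m σ (Z σ) ∧
        ι (algebraMap H M (ε σ : 𝓞 H)) = Complex.exp (-2 * deriv (Z σ) 0)) ∧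
      (∀ ρ σ, ρ ((ε σ : 𝓞 H) : H) = ((ε (ρ * σ) : 𝓞 H) : H)) ∧
      (∃ (E : Type) (_ : Field E) (_ : Algebra K E) (_ : Algebra H E) (_ : IsScalarTower K H E),
        IsAbelianGalois K E ∧ ∀ σ, ∃ y : E, y ^ 2 = algebraMap H E ((ε σ : 𝓞 H) : H)) ∧
      ∀ g : H →+* ℂ, (∃ x : K, g (algebraMap K H x) ≠ ι (algebraMap K M x)) →
        ∀ σ, ‖g ((ε σ : 𝓞 H) : H)‖ = 1 := by
  have habH : IsAbelianGalois K H := IsAbelianGalois.tower_bot K H M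
  obtain ⟨N, hN, h2⟩ := exists_N (H := H) h0 ha hc
  have hcomap : ∀ 𝔓 : Ideal (𝓞 H), 𝔓 ≠ ⊥ → 𝔓.comap (algebraMap (𝓞 K) (𝓞 H)) ≠ ⊥ :=
    fun 𝔓 h1 h3 => h1 (Ideal.eq_bot_of_comap_eq_bot h3)
  have hur1 : ∀ 𝔓 : Ideal (𝓞 H), 𝔓.IsPrime → 𝔓 ≠ ⊥ →
      IsCoprime (𝔓.comap (algebraMap (𝓞 K) (𝓞 H))) m →
      ¬ 𝔓 ^ 2 ∣ (𝔓.comap (algebraMap (𝓞 K) (𝓞 H))).map (algebraMap (𝓞 K) (𝓞 H)) := by
    intro 𝔓 h1 h3 h4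
    exact hur 𝔓 h1 h3 fun h5 =>
      (not_isCoprime_iff (Ideal.comap_isPrime _ _) (hcomap 𝔓 h3)).2 h5 h4
  have hur2 : ∀ 𝔮 : Ideal (𝓞 K), 𝔮.IsPrime → 𝔮 ≠ ⊥ → IsCoprime 𝔮 m → UnrAt H 𝔮 := by
    intro 𝔮 h𝔮 h𝔮0 h3 Q hQ hQ𝔮
    have hQ0 : Q ≠ ⊥ := by
      rintro rfl
      apply h𝔮0
      rw [← hQ𝔮]
      exact Ideal.comap_bot_of_injective _ (RingOfIntegers.algebraMap.injective K H)
    have h4 := hur1 Q hQ hQ0 (by rw [hQ𝔮]; exact h3)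
    rwa [hQ𝔮] at h4
  have h1 : m ≠ ⊤ := by
    rintro rfl
    obtain ⟨p, hp, hpa⟩ := ha
    obtain ⟨𝔮, h𝔮, hp𝔮⟩ := exists_prime_over (M := K) hp
    exact h𝔮.ne_top (top_le_iff.1 (Ideal.dvd_iff_le.1 (hpa 𝔮 h𝔮 hp𝔮)))
  obtain ⟨G, hG, hG'⟩ := exists_G (k := k) hK hk ι hH ι₂ hι₂ h0 h1 hur1 hmod
  have hKM : ∀ x : K, ι (algebraMap H M (algebraMap K H x)) = ι (algebraMap K M x) := fun x => by
    rw [← IsScalarTower.algebraMap_apply K H M]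
  obtain ⟨R, ε, h3, h4, h5, h6⟩ := shintaniU (k := k) hK hk ι hH hcl h2 hur2
    (fun p hp h7 h8 𝔮 h9 h10 => (not_isCoprime_iff h9 (split_ne_bot hp h10)).2
      (hb p hp h7 h8 𝔮 h9 h10))
    (fun hu => by
      obtain ⟨η, hη, -⟩ := CMU.exists_stark (k := k) (M := M) ⟨hk, inferInstance⟩ hN ι hu
      exact ⟨η, hη⟩) G hG
  refine ⟨G, ε, fun σ => ⟨hG σ, ?_⟩, h4, h5, fun g hg => (h6 g hg).2⟩
  have h7 := (hG' R (fun g hg => (h6 g hg).1) σ).2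
  rw [h3]
  congr 1
  linear_combination h7

end Pool.Agent.StarkU
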