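import Pool.Agent.StarkU.ExactM
import Pool.Agent.SLow.Tower

/-!
The conjecture for larger sets of primes.
-/

set_option autoImplicit false

noncomputable section

open NumberField Module Pool.Agent.StarkRQ Pool.Agent.HeckeM Pool.Agent.SLow

namespace Pool.Agent.StarkU

/-- the primes of `s` are added to the modulus `m` -/
theorem starkFor_prod {K H : Type} [Field K] [NumberField K] [Field H] [NumberField H]
    [Algebra K H] [IsAbelianGalois K H] (hK : finrank ℚ K = 2) {b : Bool} {i : H →+* ℂ}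
    {ι₁ ι₂ : K →+* ℝ} (hι : ι₁ ≠ ι₂) {m : Ideal (𝓞 K)} (h0 : m ≠ ⊥) (h1 : m ≠ ⊤)
    (hH : InRay ι₁ ι₂ m i) (h : StarkFor b 1 ι₂ m i)
    (s : Finset (Ideal (𝓞 K))) (hs : ∀ q ∈ s, q.IsPrime ∧ q ≠ ⊥ ∧ ¬ m ≤ q) :
    StarkFor b 1 ι₂ (m * ∏ q ∈ s, q) i := by
  classical
  induction s using Finset.induction_on with
  | empty => rwa [Finset.prod_empty, mul_one]
  | insert q s hqs ih =>
    have ih' := ih fun q' h' => hs q' (Finset.mem_insert_of_mem h')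
    obtain ⟨hq1, hq0, hqm⟩ := hs q (Finset.mem_insert_self q s)
    set M : Ideal (𝓞 K) := m * ∏ q ∈ s, q with hM
    have hle : M ≤ m := Ideal.mul_le_left
    have hM0 : M ≠ ⊥ := by
      rw [← Ideal.zero_eq_bot] at h0 ⊢
      refine mul_ne_zero h0 (Finset.prod_ne_zero_iff.2 fun q' h' => ?_)
      rw [Ideal.zero_eq_bot]
      exact (hs q' (Finset.mem_insert_of_mem h')).2.1
    have hM1 : M ≠ ⊤ := fun h2 => h1 (top_le_iff.1 (h2.symm.le.trans hle))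
    have hqM : ¬ M ≤ q := by
      intro h4
      rcases (hq1.mul_le.1 h4) with h5 | h5
      · exact hqm h5
      · obtain ⟨q', h7, h8⟩ := (Ideal.IsPrime.prod_le hq1).1 h5
        have h9 := hs q' (Finset.mem_insert_of_mem h7)
        have h10 : q' = q := (h9.1.isMaximal h9.2.1).eq_of_le hq1.ne_top h8
        exact hqs (h10 ▸ h7)
    have h3 := starkFor_mul hK hι hM0 hM1 (hH.mono hle) hq1 hq0 hqM ih'
    rw [Finset.prod_insert hqs]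
    have e : m * (q * ∏ q ∈ s, q) = M * q := by
      rw [hM]
      ring
    rwa [e]

/-- the conjecture for `m` implies the conjecture for the multiples of `m` -/
theorem starkFor_dvd {K H : Type} [Field K] [NumberField K] [Field H] [NumberField H]
    [Algebra K H] [IsAbelianGalois K H] (hK : finrank ℚ K = 2) {b : Bool} {i : H →+* ℂ}
    {ι₁ ι₂ : K →+* ℝ} (hι : ι₁ ≠ ι₂) {m 𝔫 : Ideal (𝓞 K)} (h0 : 𝔫 ≠ ⊥) (hmn : m ∣ 𝔫) (h1 : m ≠ ⊤)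
    (hH : InRay ι₁ ι₂ m i) (h : StarkFor b 1 ι₂ m i) : StarkFor b 1 ι₂ 𝔫 i := by
  classical
  have hle : 𝔫 ≤ m := Ideal.dvd_iff_le.1 hmn
  have hm0 : m ≠ ⊥ := fun h2 => h0 (le_bot_iff.1 (hle.trans h2.le))
  set s : Finset (Ideal (𝓞 K)) :=
    (UniqueFactorizationMonoid.normalizedFactors 𝔫).toFinset.filter fun q => ¬ m ≤ q with hs
  have hmem : ∀ q, q ∈ s ↔ (q ∈ UniqueFactorizationMonoid.normalizedFactors 𝔫 ∧ ¬ m ≤ q) := by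
    intro q
    rw [hs, Finset.mem_filter, Multiset.mem_toFinset]
  have hs1 : ∀ q ∈ s, q.IsPrime ∧ q ≠ ⊥ ∧ ¬ m ≤ q := by
    intro q hq
    obtain ⟨h2, h3⟩ := (hmem q).1 hq
    have h4 := UniqueFactorizationMonoid.prime_of_normalized_factor q h2
    exact ⟨Ideal.isPrime_of_prime h4, h4.ne_zero, h3⟩
  have h2 := starkFor_prod hK hι hm0 h1 hH h s hs1
  refine (starkFor_congr fun a => ?_).1 h2
  rw [IsCoprime.mul_right_iff]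
  constructor
  · rintro ⟨h3, h4⟩
    rw [Ideal.isCoprime_iff_sup_eq]
    by_contra hne
    obtain ⟨q, hq, hql⟩ := Ideal.exists_le_maximal _ hne
    have h5 : a ≤ q := le_sup_left.trans hql
    have h6 : 𝔫 ≤ q := le_sup_right.trans hql
    by_cases h7 : m ≤ q
    · rw [Ideal.isCoprime_iff_sup_eq] at h3
      exact hq.ne_top (top_le_iff.1 (h3.symm.le.trans (sup_le h5 h7)))
    · have h8 : q ∈ s := by
        rw [hmem]
        refine ⟨?_, h7⟩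
        have h9 : q ≠ ⊥ := fun h10 => h0 (le_bot_iff.1 (h6.trans h10.le))
        rw [Ideal.mem_normalizedFactors_iff h0]
        exact ⟨hq.isPrime, h6⟩
      have h9 : ∏ q ∈ s, q ≤ q := (Ideal.IsPrime.prod_le hq.isPrime).2 ⟨q, h8, le_rfl⟩
      rw [Ideal.isCoprime_iff_sup_eq] at h4
      exact hq.ne_top (top_le_iff.1 (h4.symm.le.trans (sup_le h5 h9)))
  · intro h3
    have h4 : ∀ J : Ideal (𝓞 K), 𝔫 ≤ J → IsCoprime a J := by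
      intro J hJ
      rw [Ideal.isCoprime_iff_sup_eq] at h3 ⊢
      exact top_le_iff.1 (h3.symm.le.trans (sup_le_sup_left hJ _))
    refine ⟨h4 m hle, ?_⟩
    refine IsCoprime.prod_right fun q hq => h4 q ?_
    have h5 := ((hmem q).1 hq).1
    rw [Ideal.mem_normalizedFactors_iff h0] at h5
    exact h5.2

/-- the conjecture for `H/K`, for all sets of primes containing the primes of a suitable modulus -/
theorem exact_final {M : Type} [Field M] [NumberField M] [IsGalois ℚ M]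
    {K k H : Type} [Field K] [NumberField K] [Field k] [NumberField k] [Field H] [NumberField H]
    [Algebra K M] [Algebra k M] [Algebra K H] [Algebra H M] [IsScalarTower K H M]
    [IsTotallyReal K] [IsTotallyComplex k] (hK : finrank ℚ K = 2) (hk : finrank ℚ k = 2)
    [IsAbelianGalois K M] [IsAbelianGalois k M] (ι : M →+* ℂ)
    (hH : ∀ y : H, (ι (algebraMap H M y)).im = 0)
    (ι₂ : K →+* ℝ) (hι₂ : ∃ x : K, ((ι₂ x : ℝ) : ℂ) ≠ ι (algebraMap K M x))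
    {m 𝔫 : Ideal (𝓞 K)} (h0 : 𝔫 ≠ ⊥) (hmn : m ∣ 𝔫)
    (hur : ∀ 𝔓 : Ideal (𝓞 H), 𝔓.IsPrime → 𝔓 ≠ ⊥ →
      ¬ 𝔓.comap (algebraMap (𝓞 K) (𝓞 H)) ∣ m →
      ¬ 𝔓 ^ 2 ∣ (𝔓.comap (algebraMap (𝓞 K) (𝓞 H))).map (algebraMap (𝓞 K) (𝓞 H)))
    (hmod : ∀ α : 𝓞 K, α - 1 ∈ m → 0 < ι₂ (α : K) →
      HasArtinSymbol (Ideal.span {α}) (1 : Gal(H/K)))
    (ha : ∃ p : ℕ, p.Prime ∧ ∀ 𝔮 : Ideal (𝓞 K), 𝔮.IsPrime → (p : 𝓞 K) ∈ 𝔮 → 𝔮 ∣ m)
    (hb : ∀ p : ℕ, p.Prime → (p : ℤ) ∣ discr K → ¬ (p : ℤ) ∣ discr k → ∀ 𝔮 : Ideal (𝓞 K),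
      𝔮.IsPrime → (p : 𝓞 K) ∈ 𝔮 → 𝔮 ∣ m)
    (hc : ∀ 𝔮 𝔮' : Ideal (𝓞 K), 𝔮.IsPrime → 𝔮'.IsPrime → 𝔮 ∣ m → ¬ 𝔮' ∣ m →
      (∃ p : ℕ, p.Prime ∧ (p : 𝓞 K) ∈ 𝔮 ∧ (p : 𝓞 K) ∈ 𝔮') →
      ∃ 𝔓 : Ideal (𝓞 H), 𝔓.IsPrime ∧ 𝔓.comap (algebraMap (𝓞 K) (𝓞 H)) = 𝔮 ∧
        𝔓 ^ 2 ∣ 𝔮.map (algebraMap (𝓞 K) (𝓞 H))) :
    ∃ (Z : Gal(H/K) → ℂ → ℂ) (ε : Gal(H/K) → (𝓞 H)ˣ),
      (∀ σ, IsPZ 𝔫 σ (Z σ) ∧
        ι (algebraMap H M (ε σ : 𝓞 H)) = Complex.exp (-2 * deriv (Z σ) 0)) ∧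
      (∀ ρ σ, ρ ((ε σ : 𝓞 H) : H) = ((ε (ρ * σ) : 𝓞 H) : H)) ∧
      (∀ g : H →+* ℂ, (∀ x : K, g (algebraMap K H x) = ι₂ x) →
        ∀ σ, ‖g ((ε σ : 𝓞 H) : H)‖ = 1) ∧
      ∃ (E : Type) (_ : Field E) (_ : Algebra K E) (_ : Algebra H E) (_ : IsScalarTower K H E),
        IsAbelianGalois K E ∧ ∀ σ, ∃ y : E, y ^ 2 = algebraMap H E ((ε σ : 𝓞 H) : H) := by
  have habH : IsAbelianGalois K H := IsAbelianGalois.tower_bot K H M
  have hm0 : m ≠ ⊥ := fun h2 => h0 (le_bot_iff.1 ((Ideal.dvd_iff_le.1 hmn).trans h2.le))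
  have hKM : ∀ x : K, ι (algebraMap H M (algebraMap K H x)) = ι (algebraMap K M x) := fun x => by
    rw [← IsScalarTower.algebraMap_apply K H M]
  have hcomap : ∀ 𝔓 : Ideal (𝓞 H), 𝔓 ≠ ⊥ → 𝔓.comap (algebraMap (𝓞 K) (𝓞 H)) ≠ ⊥ :=
    fun 𝔓 h1 h3 => h1 (Ideal.eq_bot_of_comap_eq_bot h3)
  have h1 : m ≠ ⊤ := by
    rintro rfl
    obtain ⟨p, hp, hpa⟩ := ha
    obtain ⟨𝔮, h𝔮, hp𝔮⟩ := exists_prime_over (M := K) hp
    exact h𝔮.ne_top (top_le_iff.1 (Ideal.dvd_iff_le.1 (hpa 𝔮 h𝔮 hp𝔮)))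
  obtain ⟨ι₁, hι₁⟩ := HeckeRQ.exists_real_embedding (K := K) (ι.comp (algebraMap H M)) hH
  have hι : ι₁ ≠ ι₂ := by
    rintro rfl
    obtain ⟨x, hx⟩ := hι₂
    exact hx ((hι₁ x).trans (hKM x))
  have hR : InRay ι₁ ι₂ m (ι.comp (algebraMap H M)) := {
    hreal := hH
    hover := fun x => (hι₁ x).symm
    hunr := fun 𝔓 h2 h3 h4 => hur 𝔓 h2 h3 fun h5 =>
      (not_isCoprime_iff (Ideal.comap_isPrime _ _) (hcomap 𝔓 h3)).2 h5 h4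
    hmod := hmod }
  obtain ⟨Z, ε, h2, h3, h4, h5⟩ := exact_main (k := k) hK hk ι hH ι₂ hι₂ hm0 hur hmod ha hb hc
  have hS : StarkFor true 1 ι₂ m (ι.comp (algebraMap H M)) := by
    refine ⟨Z, ε, fun σ => ⟨(h2 σ).1, ?_⟩, h3, fun g hg => h5 g ?_, fun _ => h4⟩
    · have h6 := (h2 σ).2
      rw [RingHom.comp_apply, h6]
      congr 1
      push_cast
      ring
    · obtain ⟨x, hx⟩ := hι₂
      exact ⟨x, by rw [hg]; exact hx⟩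
  obtain ⟨Z', ε', h6, h7, h8, h9⟩ := starkFor_dvd hK hι h0 hmn h1 hR hS
  refine ⟨Z', ε', fun σ => ⟨(h6 σ).1, ?_⟩, h7, h8, h9 rfl⟩
  have h10 := (h6 σ).2
  rw [RingHom.comp_apply] at h10
  rw [h10]
  congr 1
  push_cast
  ring

end Pool.Agent.StarkU
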