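import Pool.Agent.StarkU.LitG
import Pool.Agent.StarkRQ.Shintani

/-!
# Reduction to the case where `M` is the Galois closure of `H`

`N` is the group of all elements of `Gal(M/ℚ)` which are trivial on all conjugates of `H`.
If `N` does not fix `k`, then the commutator `z` is in `N`, all embeddings of `H` which differ from
`ι` on `K` are real, and the derivatives at `0` vanish (`case_real`). Otherwise the fixed field of `N`
contains `k` and `H` and we may replace `M` by this field (`exists_closure`).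
-/

set_option autoImplicit false

noncomputable section

open NumberField Module Pool.Agent.StarkRQ Pool.Agent.HeckeM

namespace Pool.Agent.StarkU

/-- all embeddings of `H` which differ from `ι` on `K` are real if there is an element of
`Gal(M/ℚ)` which is trivial on all conjugates of `H` but not on `k` -/
theorem real_of_not_fix {M : Type} [Field M] [NumberField M] [IsGalois ℚ M]
    {K k H : Type} [Field K] [NumberField K] [Field k] [NumberField k] [Field H] [NumberField H]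
    [Algebra K M] [Algebra k M] [Algebra K H] [Algebra H M] [IsScalarTower K H M]
    [IsTotallyReal K] [IsTotallyComplex k] (hK : finrank ℚ K = 2) (hk : finrank ℚ k = 2)
    [IsAbelianGalois K M] [IsAbelianGalois k M] (ι : M →+* ℂ)
    (hH : ∀ y : H, (ι (algebraMap H M y)).im = 0)
    {n : Gal(M/ℚ)} (hn : ∀ (γ : Gal(M/ℚ)) (y : H), n (γ (algebraMap H M y)) = γ (algebraMap H M y))
    (hnk : n ∉ fixG k M) (g : H →+* ℂ)
    (hg : ∃ x : K, g (algebraMap K H x) ≠ ι (algebraMap K M x)) (y : H) :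
    g y = starRingEnd ℂ (g y) := by
  classical
  have hA : ∀ σ τ : Gal(M/K), σ * τ = τ * σ := fun σ τ => mul_comm' σ τ
  have hB : ∀ σ τ : Gal(M/k), σ * τ = τ * σ := fun σ τ => mul_comm' σ τ
  obtain ⟨c, hc⟩ := exists_cc ι
  have hcc : c * c = 1 := by
    ext x
    apply ι.injective
    change ι (c (c x)) = ι x
    rw [hc, hc, Complex.conj_conj]
  have hcK : c ∈ fixG K M := cc_mem_fixG hc
  have hck : c ∉ fixG k M := cc_notMem_fixG hc
  obtain ⟨z, hzA, hzB, hzz, hcen, hcA, hcB, hsq, b, hzb⟩ :=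
    exists_z (fixG_index (M := M) hK) (fixG_index (M := M) hk) (fixG_comm hA) (fixG_comm hB)
      hcK hck hcc
  have hzc := hcen z hzA hzB
  have hcy : ∀ y : H, c (algebraMap H M y) = algebraMap H M y := by
    intro y
    apply ι.injective
    rw [hc]
    exact Complex.conj_eq_iff_im.2 (hH y)
  obtain ⟨γ, hγ⟩ : ∃ γ : Gal(M/ℚ), ∀ y : H, g y = ι (γ (algebraMap H M y)) := by
    let _ : Algebra H ℂ := g.toAlgebra
    have : Algebra.IsAlgebraic H M := Algebra.IsAlgebraic.of_finite H M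
    obtain ⟨γ, hγ⟩ := exists_comp ι (IsAlgClosed.lift : M →ₐ[H] ℂ).toRingHom
    refine ⟨γ, fun y => ?_⟩
    rw [← hγ]
    exact ((IsAlgClosed.lift : M →ₐ[H] ℂ).commutes y).symm
  have hγK : γ ∉ fixG K M := by
    obtain ⟨x₀, hx₀⟩ := hg
    intro h
    rw [mem_fixG] at h
    apply hx₀
    rw [hγ, ← IsScalarTower.algebraMap_apply, h]
  have hnK : n ∈ fixG K M := by
    rw [mem_fixG]
    intro x
    have h1 := hn 1 (algebraMap K H x)
    rw [IsScalarTower.algebraMap_apply K H M]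
    exact h1
  -- the commutator is trivial on all conjugates of `H`
  have hz : ∀ (δ : Gal(M/ℚ)) (y : H), z (δ (algebraMap H M y)) = δ (algebraMap H M y) := by
    intro δ y
    have h1 : z * n = γ * n * γ⁻¹ := (hcA n hnK hnk γ hγK).symm
    have h2 := hn δ y
    have h3 := hn (γ⁻¹ * δ) y
    have h4 : z (n (δ (algebraMap H M y))) = γ (n ((γ⁻¹ * δ) (algebraMap H M y))) :=
      DFunLike.congr_fun h1 (δ (algebraMap H M y))
    rw [h2, h3] at h4
    rw [h4]
    change (γ * (γ⁻¹ * δ)) _ = _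
    rw [mul_inv_cancel_left]
  have hconj : γ * c = z * c * γ := by
    have := hcA c hcK hck γ hγK
    rw [← this, inv_mul_cancel_right]
  have e3 : γ (c (algebraMap H M y)) = z (c (γ (algebraMap H M y))) := by
    change (γ * c) _ = (z * c * γ) _
    rw [hconj]
  rw [hcy] at e3
  have e4 : z (c (γ (algebraMap H M y))) = c (z (γ (algebraMap H M y))) := by
    change (z * c) _ = (c * z) _
    rw [hzc]
  rw [e4, hz] at e3
  have e5 := congrArg ι e3
  rw [hc] at e5
  rw [hγ]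
  exact e5

theorem case_real {M : Type} [Field M] [NumberField M] [IsGalois ℚ M]
    {K k H : Type} [Field K] [NumberField K] [Field k] [NumberField k] [Field H] [NumberField H]
    [Algebra K M] [Algebra k M] [Algebra K H] [Algebra H M] [IsScalarTower K H M]
    [IsTotallyReal K] [IsTotallyComplex k] (hK : finrank ℚ K = 2) (hk : finrank ℚ k = 2)
    [IsAbelianGalois K M] [IsAbelianGalois k M] (ι : M →+* ℂ)
    (hH : ∀ y : H, (ι (algebraMap H M y)).im = 0)
    (ι₂ : K →+* ℝ) (hι₂ : ∃ x : K, ((ι₂ x : ℝ) : ℂ) ≠ ι (algebraMap K M x))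
    {m : Ideal (𝓞 K)} (h0 : m ≠ ⊥) (h1 : m ≠ ⊤)
    (hur : ∀ 𝔓 : Ideal (𝓞 H), 𝔓.IsPrime → 𝔓 ≠ ⊥ →
      IsCoprime (𝔓.comap (algebraMap (𝓞 K) (𝓞 H))) m →
      ¬ 𝔓 ^ 2 ∣ (𝔓.comap (algebraMap (𝓞 K) (𝓞 H))).map (algebraMap (𝓞 K) (𝓞 H)))
    (hmod : ∀ α : 𝓞 K, α - 1 ∈ m → 0 < ι₂ (α : K) →
      HasArtinSymbol (Ideal.span {α}) (1 : Gal(H/K)))
    {n : Gal(M/ℚ)} (hn : ∀ (γ : Gal(M/ℚ)) (y : H), n (γ (algebraMap H M y)) = γ (algebraMap H M y))
    (hnk : n ∉ fixG k M) :
    ∃ (Z : Gal(H/K) → ℂ → ℂ) (ε : Gal(H/K) → (𝓞 H)ˣ),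
      (∀ σ, IsPZ m σ (Z σ) ∧
        ι (algebraMap H M (ε σ : 𝓞 H)) = Complex.exp (-2 * deriv (Z σ) 0)) ∧
      (∀ ρ σ, ρ ((ε σ : 𝓞 H) : H) = ((ε (ρ * σ) : 𝓞 H) : H)) ∧
      (∃ (E : Type) (_ : Field E) (_ : Algebra K E) (_ : Algebra H E) (_ : IsScalarTower K H E),
        IsAbelianGalois K E ∧ ∀ σ, ∃ y : E, y ^ 2 = algebraMap H E ((ε σ : 𝓞 H) : H)) ∧
      ∀ g : H →+* ℂ, (∃ x : K, g (algebraMap K H x) ≠ ι (algebraMap K M x)) →
        ∀ σ, ‖g ((ε σ : 𝓞 H) : H)‖ = 1 := by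
  have habH : IsAbelianGalois K H := IsAbelianGalois.tower_bot K H M
  obtain ⟨G, hG, hG'⟩ := exists_G (M := M) (k := k) hK hk ι hH ι₂ hι₂ h0 h1 hur hmod
  have hd : ∀ σ, deriv (G σ) 0 = 0 := by
    intro σ
    have h2 := (hG' 1 (fun g hg y => by
      rw [AlgEquiv.one_apply]
      exact real_of_not_fix hK hk ι hH hn hnk g hg y) σ).2
    rw [one_mul] at h2
    have h3 : (2 : ℂ) * deriv (G σ) 0 = 0 := by linear_combination h2
    exact (mul_eq_zero.1 h3).resolve_left two_ne_zero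
  refine ⟨G, fun _ => 1, fun σ => ⟨hG σ, ?_⟩, fun ρ σ => ?_, ?_, fun g _ σ => ?_⟩
  · rw [hd, mul_zero, Complex.exp_zero]
    simp
  · simp
  · exact ⟨H, inferInstance, inferInstance, inferInstance, inferInstance, habH, fun σ =>
      ⟨1, by simp⟩⟩
  · simp

end Pool.Agent.StarkU
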