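import Pool.Agent.StarkU.Closure

/-!
# The Galois closure of `H` inside `M`
-/

set_option autoImplicit false

noncomputable section

open NumberField Module Pool.Agent.StarkRQ Pool.Agent.HeckeM

namespace Pool.Agent.StarkU

/-- the elements which are trivial on all conjugates of `H` -/
def conjFix (M H : Type) [Field M] [NumberField M] [Field H] [Algebra H M] :
    Subgroup Gal(M/ℚ) where
  carrier := {n | ∀ (γ : Gal(M/ℚ)) (y : H), n (γ (algebraMap H M y)) = γ (algebraMap H M y)}
  one_mem' := fun _ _ => rfl
  mul_mem' := by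
    intro a b ha hb γ y
    rw [AlgEquiv.mul_apply, hb, ha]
  inv_mem' := by
    intro a ha γ y
    have h := congrArg a.symm (ha γ y)
    rw [AlgEquiv.symm_apply_apply] at h
    exact h.symm

theorem mem_conjFix {M H : Type} [Field M] [NumberField M] [Field H] [Algebra H M]
    {n : Gal(M/ℚ)} : n ∈ conjFix M H ↔
      ∀ (γ : Gal(M/ℚ)) (y : H), n (γ (algebraMap H M y)) = γ (algebraMap H M y) := Iff.rfl

instance normal_conjFix {M H : Type} [Field M] [NumberField M] [Field H] [Algebra H M] :
    (conjFix M H).Normal := by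
  constructor
  intro n hn g γ y
  have h := hn (g⁻¹ * γ) y
  change g (n (g⁻¹ (γ (algebraMap H M y)))) = _
  have h' : n (g⁻¹ (γ (algebraMap H M y))) = g⁻¹ (γ (algebraMap H M y)) := h
  rw [h']
  change (g * g⁻¹) _ = _
  rw [mul_inv_cancel]
  rfl

theorem exists_closure {M : Type} [Field M] [NumberField M] [IsGalois ℚ M]
    {K k H : Type} [Field K] [NumberField K] [Field k] [NumberField k] [Field H] [NumberField H]
    [Algebra K M] [Algebra k M] [Algebra K H] [Algebra H M] [IsScalarTower K H M]
    [IsAbelianGalois K M] [IsAbelianGalois k M]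
    (hkN : conjFix M H ≤ fixG k M) :
    ∃ (M' : Type) (_ : Field M') (_ : NumberField M') (_ : IsGalois ℚ M') (_ : Algebra K M')
      (_ : Algebra k M') (_ : Algebra H M') (_ : IsScalarTower K H M') (_ : IsAbelianGalois K M')
      (_ : IsAbelianGalois k M') (j : M' →+* M),
      (∀ y : H, j (algebraMap H M' y) = algebraMap H M y) ∧
      ∀ g : Gal(M'/ℚ), (∀ (γ : Gal(M'/ℚ)) (y : H),
        g (γ (algebraMap H M' y)) = γ (algebraMap H M' y)) → g = 1 := by
  classical
  let L : IntermediateField ℚ M := IntermediateField.fixedField (conjFix M H)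
  have hL : IsGalois ℚ L := IsGalois.of_fixedField_normal_subgroup (conjFix M H)
  have hHL : ∀ y : H, algebraMap H M y ∈ L := by
    intro y
    rw [IntermediateField.mem_fixedField_iff]
    intro n hn
    exact hn 1 y
  have hkL : ∀ x : k, algebraMap k M x ∈ L := by
    intro x
    rw [IntermediateField.mem_fixedField_iff]
    intro n hn
    exact mem_fixG.1 (hkN hn) x
  let aH : Algebra H L := ((algebraMap H M).codRestrict L.toSubfield hHL).toAlgebra
  let ak : Algebra k L := ((algebraMap k M).codRestrict L.toSubfield hkL).toAlgebra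
  let aK : Algebra K L := ((algebraMap H L).comp (algebraMap K H)).toAlgebra
  have sK : IsScalarTower K H L := IsScalarTower.of_algebraMap_eq' rfl
  have sH : IsScalarTower H L M := IsScalarTower.of_algebraMap_eq' rfl
  have sk : IsScalarTower k L M := IsScalarTower.of_algebraMap_eq' rfl
  have sKM : IsScalarTower K L M := IsScalarTower.of_algebraMap_eq fun x => by
    rw [IsScalarTower.algebraMap_apply K H M, IsScalarTower.algebraMap_apply K H L]
    rfl
  have h1 : IsAbelianGalois K L := IsAbelianGalois.tower_bot K L M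
  have h2 : IsAbelianGalois k L := IsAbelianGalois.tower_bot k L M
  refine ⟨L, inferInstance, inferInstance, hL, aK, ak, aH, sK, h1, h2, algebraMap L M,
    fun y => rfl, ?_⟩
  intro g hg
  obtain ⟨g', hg'⟩ := AlgEquiv.restrictNormalHom_surjective (F := ℚ) (K₁ := L) M g
  have hres : ∀ (δ : Gal(M/ℚ)) (x : L), ((AlgEquiv.restrictNormalHom L δ x : L) : M) = δ x :=
    fun δ x => AlgEquiv.restrictNormal_commutes δ L x
  have hmem : g' ∈ conjFix M H := by
    intro γ y
    have h3 := hg (AlgEquiv.restrictNormalHom L γ) y
    have h4 : (((AlgEquiv.restrictNormalHom L γ) (algebraMap H L y) : L) : M) =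
        γ (algebraMap H M y) := hres γ _
    have h5 : ((g ((AlgEquiv.restrictNormalHom L γ) (algebraMap H L y)) : L) : M) =
        g' (((AlgEquiv.restrictNormalHom L γ) (algebraMap H L y) : L) : M) := by
      rw [← hg']
      exact hres g' _
    rw [h3, h4] at h5
    exact h5.symm
  ext x
  rw [← hg', hres]
  exact IntermediateField.mem_fixedField_iff _ _ |>.1 x.2 g' hmem

end Pool.Agent.StarkU
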