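import Pool.Agent.StarkU.ConvM
import Pool.Agent.StarkU.RamP
import Pool.Agent.StarkRQ.Shintani

/-!
# Comparison of the coefficients of the partial zeta functions of `H/K` and `M/k`
-/

set_option autoImplicit false

noncomputable section

open NumberField Module Pool.Agent.StarkRQ Pool.Agent.HeckeM
open scoped Pointwise

namespace Pool.Agent.StarkU

section cp

variable {F L : Type*} [Field F] [NumberField F] [Field L] [NumberField L] [Algebra F L]
  [IsGalois F L]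

theorem cP_eq (hab : ∀ σ τ : Gal(L/F), σ * τ = τ * σ) {P : Ideal (𝓞 F) → Prop}
    (hU : ∀ 𝔞 : Ideal (𝓞 F), 𝔞 ≠ ⊥ → P 𝔞 → UnrAll L 𝔞) {n : ℕ} (hn : n ≠ 0) (σ : Gal(L/F)) :
    cP P (fun 𝔞 => (art 𝔞 : Gal(L/F))) n σ =
      Nat.card {𝔞 : Ideal (𝓞 F) // Ideal.absNorm 𝔞 = n ∧ P 𝔞 ∧ HasArtinSymbol 𝔞 σ} := by
  unfold cP
  refine Nat.card_congr (Equiv.subtypeEquivRight fun 𝔞 => ?_)
  refine and_congr_right fun h1 => and_congr_right fun h2 => ?_
  have h0 : 𝔞 ≠ ⊥ := by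
    rintro rfl
    rw [Ideal.absNorm_bot] at h1
    exact hn h1.symm
  rw [artU_spec hab h0 (hU 𝔞 h0 h2)]
  exact eq_comm

theorem zcI_eq_cP (hab : ∀ σ τ : Gal(L/F), σ * τ = τ * σ) {m : Ideal (𝓞 F)}
    (hU : ∀ 𝔞 : Ideal (𝓞 F), 𝔞 ≠ ⊥ → IsCoprime 𝔞 m → UnrAll L 𝔞) {n : ℕ} (hn : n ≠ 0)
    (σ : Gal(L/F)) : zcI m σ n = cP (fun 𝔞 => IsCoprime 𝔞 m) (fun 𝔞 => (art 𝔞 : Gal(L/F))) n σ := by
  rw [cP_eq hab hU hn]
  rfl

theorem zcoeff_eq_cP (hab : ∀ σ τ : Gal(L/F), σ * τ = τ * σ) {N : ℕ}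
    (hU : ∀ 𝔞 : Ideal (𝓞 F), 𝔞 ≠ ⊥ → (Ideal.absNorm 𝔞).Coprime N → UnrAll L 𝔞) {n : ℕ}
    (hn : n ≠ 0) (σ : Gal(L/F)) : zcoeff N σ n =
      cP (fun 𝔞 => (Ideal.absNorm 𝔞).Coprime N) (fun 𝔞 => (art 𝔞 : Gal(L/F))) n σ := by
  rw [cP_eq hab hU hn, zcoeff]
  split_ifs with h
  · refine Nat.card_congr (Equiv.subtypeEquivRight fun 𝔞 => ?_)
    refine and_congr_right fun h1 => ?_
    rw [h1]
    exact ⟨fun h2 => ⟨h, h2⟩, fun h2 => h2.2⟩
  · have : IsEmpty {𝔞 : Ideal (𝓞 F) // Ideal.absNorm 𝔞 = n ∧ (Ideal.absNorm 𝔞).Coprime N ∧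
        HasArtinSymbol 𝔞 σ} := by
      refine ⟨fun a => h ?_⟩
      have := a.2.2.1
      rwa [a.2.1] at this
    rw [Nat.card_of_isEmpty]

omit [IsGalois F L] [NumberField L] in
theorem hasArt_pow {𝔮 : Ideal (𝓞 F)} (h𝔮 : 𝔮.IsPrime) (h0 : 𝔮 ≠ ⊥) {ψ : Gal(L/F)}
    (h : IsFrob 𝔮 ψ) (e : ℕ) : HasArtinSymbol (𝔮 ^ e) (ψ ^ e) := by
  refine ⟨List.replicate e (𝔮, ψ), ?_, ?_, ?_⟩
  · intro x hx
    rw [List.eq_of_mem_replicate hx]
    exact ⟨h𝔮, h0, h⟩
  · rw [List.map_replicate, List.prod_replicate]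
  · rw [List.map_replicate, List.prod_replicate]

end cp

section lift

variable {K k H M : Type} [Field K] [NumberField K] [Field k] [NumberField k] [Field H]
  [NumberField H] [Field M] [NumberField M] [Algebra K M] [Algebra k M] [Algebra K H]
  [Algebra H M] [IsScalarTower K H M] [IsGalois K H]

omit [NumberField K] in
theorem mem_lift_iff {s : Gal(M/K)} {t : Gal(M/k)}
    (hst : ∀ x : M, s x = t x) (σ : Gal(H/K)) :
    t ∈ liftSet k H σ ↔ AlgEquiv.restrictNormalHom H s = σ := by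
  rw [mem_liftSet]
  have h3 : ∀ y, algebraMap H M (AlgEquiv.restrictNormalHom H s y) = s (algebraMap H M y) :=
    fun y => AlgEquiv.restrictNormal_commutes s H y
  constructor
  · intro h
    ext y
    apply (algebraMap H M).injective
    rw [h3, ← h y, hst]
  · rintro rfl y
    rw [h3, hst]

theorem push_conv [IsGalois K M] (f g : Gal(M/k) → ℤ)
    (hf : ∀ t, toG k M t ∉ fixG K M → f t = 0) (σ : Gal(H/K)) :
    ∑ h : Gal(H/K), (∑ t ∈ liftSet k H h, f t) * (∑ t ∈ liftSet k H (h⁻¹ * σ), g t) =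
      ∑ t ∈ liftSet k H σ, ∑ u : Gal(M/k), f u * g (u⁻¹ * t) := by
  classical
  have h1 : ∀ h : Gal(H/K), ∑ t ∈ liftSet k H h, f t =
      ∑ t : Gal(M/k), if t ∈ liftSet k H h then f t else 0 := by
    intro h
    rw [← Finset.sum_filter, Finset.filter_univ_mem]
  simp only [h1]
  simp only [Finset.sum_mul]
  rw [Finset.sum_comm, Finset.sum_comm (s := liftSet k H σ)]
  refine Finset.sum_congr rfl fun u _ => ?_
  by_cases hu : toG k M u ∈ fixG K M
  · obtain ⟨s, hs⟩ := hu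
    have hsx : ∀ x : M, s x = u x := fun x => DFunLike.congr_fun hs x
    have hmem := mem_lift_iff (H := H) (s := s) (t := u) hsx
    rw [Finset.sum_eq_single (AlgEquiv.restrictNormalHom H s)]
    · rw [if_pos ((hmem _).2 rfl), ← Finset.mul_sum]
      congr 1
      refine Finset.sum_bij (fun t _ => u * t) ?_ ?_ ?_ ?_
      · intro t ht
        rw [mem_liftSet] at ht ⊢
        intro y
        change u (t (algebraMap H M y)) = _
        rw [ht, ← hsx]
        have h3 : ∀ y, algebraMap H M (AlgEquiv.restrictNormalHom H s y) =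
            s (algebraMap H M y) := fun y => AlgEquiv.restrictNormal_commutes s H y
        rw [← h3, ← AlgEquiv.mul_apply, mul_inv_cancel_left]
      · intro t _ t' _ h
        exact mul_left_cancel h
      · intro t ht
        refine ⟨u⁻¹ * t, ?_, mul_inv_cancel_left _ _⟩
        rw [mem_liftSet] at ht ⊢
        intro y
        apply u.injective
        change (u * (u⁻¹ * t)) _ = _
        rw [mul_inv_cancel_left, ht, ← hsx]
        have h3 : ∀ y, algebraMap H M (AlgEquiv.restrictNormalHom H s y) =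
            s (algebraMap H M y) := fun y => AlgEquiv.restrictNormal_commutes s H y
        rw [← h3, ← AlgEquiv.mul_apply, mul_inv_cancel_left]
      · intro t _
        rw [inv_mul_cancel_left]
    · intro h _ hne
      rw [if_neg (fun h4 => hne ((hmem h).1 h4).symm), zero_mul]
    · intro h
      exact absurd (Finset.mem_univ _) h
  · rw [hf u hu]
    simp

end lift

section main

variable {K k H M : Type} [Field K] [NumberField K] [Field k] [NumberField k] [Field H]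
  [NumberField H] [Field M] [NumberField M] [Algebra K M] [Algebra k M] [Algebra K H]
  [Algebra H M] [IsScalarTower K H M] [IsGalois ℚ M] [IsGalois K M] [IsGalois k M] [IsGalois K H]

variable {z c : Gal(M/ℚ)} {m : Ideal (𝓞 K)} {N : ℕ}

theorem isCoprime_of_norm {F : Type*} [Field F] [NumberField F] {𝔞 m : Ideal (𝓞 F)}
    (h : (Ideal.absNorm 𝔞).Coprime (Ideal.absNorm m)) : IsCoprime 𝔞 m := by
  rw [Ideal.isCoprime_iff_add, Ideal.one_eq_top, Ideal.eq_top_iff_one]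
  obtain ⟨u, v, huv⟩ := Nat.isCoprime_iff_coprime.mpr h
  have h3 : (1 : 𝓞 F) = (u : 𝓞 F) * (Ideal.absNorm 𝔞 : ℕ) + (v : 𝓞 F) * (Ideal.absNorm m : ℕ) := by
    exact_mod_cast huv.symm
  rw [h3]
  exact Submodule.add_mem_sup (Ideal.mul_mem_left _ _ (Ideal.absNorm_mem 𝔞))
    (Ideal.mul_mem_left _ _ (Ideal.absNorm_mem m))

theorem exists_prime_factor {F : Type*} [Field F] [NumberField F] {𝔮 : Ideal (𝓞 F)}
    (h𝔮 : 𝔮.IsPrime) (h0 : 𝔮 ≠ ⊥) : ∃ p : ℕ, p.Prime ∧ p ∣ Ideal.absNorm 𝔮 ∧ (p : 𝓞 F) ∈ 𝔮 := by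
  have hne : Ideal.absNorm 𝔮 ≠ 0 := fun h => h0 (Ideal.absNorm_eq_zero_iff.1 h)
  have key : ∀ n : ℕ, n ≠ 0 → (n : 𝓞 F) ∈ 𝔮 → ∃ p : ℕ, p.Prime ∧ p ∣ n ∧ (p : 𝓞 F) ∈ 𝔮 := by
    intro n
    induction n using Nat.recOnMul with
    | zero => intro h; exact absurd rfl h
    | one =>
      intro _ h
      rw [Nat.cast_one] at h
      exact absurd ((Ideal.eq_top_iff_one 𝔮).2 h) h𝔮.ne_top
    | prime p hp => intro _ h; exact ⟨p, hp, dvd_rfl, h⟩
    | mul a b ha hb =>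
      intro h0 h
      rw [Nat.cast_mul] at h
      rcases h𝔮.mem_or_mem h with h1 | h1
      · obtain ⟨p, hp, hpa, hpP⟩ := ha (left_ne_zero_of_mul h0) h1
        exact ⟨p, hp, hpa.mul_right b, hpP⟩
      · obtain ⟨p, hp, hpa, hpP⟩ := hb (right_ne_zero_of_mul h0) h1
        exact ⟨p, hp, hpa.mul_left a, hpP⟩
  exact key _ hne (Ideal.absNorm_mem 𝔮)

/-- the further hypotheses: the modulus on the side of `k`, and the primes of `m` whose conjugates
do not divide `m` -/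
structure CData2 (H : Type) {K : Type} [Field K] [NumberField K] [Field H] [NumberField H]
    [Algebra K H] (m : Ideal (𝓞 K)) (N : ℕ) : Prop where
  hm : m ≠ ⊥
  hN0 : N ≠ 0
  hN : ∀ p : ℕ, p.Prime → (p ∣ N ↔ ∀ 𝔮 : Ideal (𝓞 K), 𝔮.IsPrime → (p : 𝓞 K) ∈ 𝔮 →
    ¬ IsCoprime 𝔮 m)
  hc : ∀ p : ℕ, p.Prime → ∀ 𝔮 𝔮' : Ideal (𝓞 K), 𝔮.IsPrime → 𝔮'.IsPrime → (p : 𝓞 K) ∈ 𝔮 →
    (p : 𝓞 K) ∈ 𝔮' → ¬ IsCoprime 𝔮 m → IsCoprime 𝔮' m → ¬ UnrAt H 𝔮

omit [IsGalois ℚ M] [IsGalois K M] [IsGalois k M] [IsGalois K H] [IsScalarTower K H M] in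
theorem CData.unrAll (h : CData K k H z c m) {𝔞 : Ideal (𝓞 K)} (hco : IsCoprime 𝔞 m) :
    UnrAll H 𝔞 := by
  intro 𝔮 h1 h2 h3
  exact h.hur 𝔮 h1 h2 (hco.of_isCoprime_of_dvd_left h3)

theorem CData.unrAllk (h : CData K k H z c m) (h2 : CData2 H m N) {𝔞 : Ideal (𝓞 k)}
    (hco : (Ideal.absNorm 𝔞).Coprime N) : UnrAll M 𝔞 := by
  intro P h3 h4 h5
  obtain ⟨p, hp, hpd, hpP⟩ := exists_prime_factor h3 h4
  have hpN : ¬ p ∣ N := by
    intro h6
    have h7 : p ∣ Ideal.absNorm 𝔞 := hpd.trans (map_dvd Ideal.absNorm h5)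
    have h8 := Nat.dvd_gcd h7 h6
    rw [hco] at h8
    exact hp.one_lt.ne' (Nat.dvd_one.1 h8)
  rw [h2.hN p hp] at hpN
  push Not at hpN
  obtain ⟨𝔮, h6, h7, h8⟩ := hpN
  exact h.unrAt hp h6 h7 h8 hpP

/-- the coefficients agree for `n` -/
def Claim (k H : Type) {K M : Type} [Field K] [NumberField K] [Field k] [NumberField k] [Field H]
    [NumberField H] [Field M] [NumberField M] [Algebra K M] [Algebra k M] [Algebra K H]
    [Algebra H M] [IsScalarTower K H M] [IsGalois K H] (m : Ideal (𝓞 K)) (N : ℕ) (zK : Gal(M/K))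
    (zk : Gal(M/k)) (n : ℕ) : Prop :=
  (∀ σ : Gal(H/K), dP (fun 𝔞 => IsCoprime 𝔞 m) (fun 𝔞 => (art 𝔞 : Gal(H/K)))
      (AlgEquiv.restrictNormalHom H zK) n σ = ∑ t ∈ liftSet k H σ,
      dP (fun 𝔞 => (Ideal.absNorm 𝔞).Coprime N) (fun 𝔞 => (art 𝔞 : Gal(M/k))) zk n t) ∧
    ∀ t : Gal(M/k), toG k M t ∉ fixG K M →
      dP (fun 𝔞 => (Ideal.absNorm 𝔞).Coprime N) (fun 𝔞 => (art 𝔞 : Gal(M/k))) zk n t = 0

/-- numbers prime to everything -/
theorem CData.claim_good (h : CData K k H z c m) (h2 : CData2 H m N)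
    (hA : ∀ σ τ : Gal(M/K), σ * τ = τ * σ) (hB : ∀ σ τ : Gal(M/k), σ * τ = τ * σ)
    (hAH : ∀ σ τ : Gal(H/K), σ * τ = τ * σ)
    {zK : Gal(M/K)} {zk : Gal(M/k)} (hzK : toG K M zK = z) (hzk : toG k M zk = z)
    {n : ℕ} (hn : n ≠ 0) (hnN : n.Coprime N) (hnD : n.Coprime (discr M).natAbs)
    (hnm : n.Coprime (Ideal.absNorm m)) : Claim k H m N zK zk n := by
  classical
  set N' : ℕ := N * (discr M).natAbs * Ideal.absNorm m with hN'
  have hnN' : n.Coprime N' := (hnN.mul_right hnD).mul_right hnm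
  have hN'0 : N' ≠ 0 := by
    refine mul_ne_zero (mul_ne_zero h2.hN0 (Int.natAbs_ne_zero.2 (discr_ne_zero M))) ?_
    exact fun h3 => h2.hm (Ideal.absNorm_eq_zero_iff.1 h3)
  have hram : ∀ p : ℕ, p.Prime → (p : ℤ) ∣ discr M → p ∣ N' := fun p _ h3 =>
    ((Int.natCast_dvd.1 h3).mul_left _).mul_right _
  have e1 : ∀ σ : Gal(H/K), cP (fun 𝔞 => IsCoprime 𝔞 m) (fun 𝔞 => (art 𝔞 : Gal(H/K))) n σ =
      zcoeff N' σ n := by
    intro σ
    rw [← zcI_eq_cP hAH (fun 𝔞 _ h3 => h.unrAll h3) hn, zcoeff, if_pos hnN', zcI]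
    refine Nat.card_congr (Equiv.subtypeEquivRight fun 𝔞 => ?_)
    refine and_congr_right fun h3 => ⟨fun h4 => h4.2, fun h4 => ⟨isCoprime_of_norm ?_, h4⟩⟩
    rw [h3]
    exact hnm
  have e2 : ∀ t : Gal(M/k), cP (fun 𝔞 => (Ideal.absNorm 𝔞).Coprime N)
      (fun 𝔞 => (art 𝔞 : Gal(M/k))) n t = zcoeff N' t n := by
    intro t
    rw [← zcoeff_eq_cP hB (fun 𝔞 _ h3 => h.unrAllk h2 h3) hn, zcoeff, zcoeff, if_pos hnN',
      if_pos hnN]
  obtain ⟨h3, h4⟩ := dcnt_eq h.hK h.hk hA hB hN'0 hram h.hz n hn hnN'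
  constructor
  · intro σ
    unfold dP
    rw [e1, e1]
    simp only [e2]
    refine zcoeff_sub_sum (H := H) h.hK h.hk hA hB hN'0 hram h.hz hzK hzk σ (liftSet k H σ) ?_ n hn
    intro t
    constructor
    · intro h5
      have h6 : toG k M t ∈ fixG K M := by
        rw [mem_fixG]
        intro x
        rw [IsScalarTower.algebraMap_apply K H M, toG_apply, mem_liftSet.1 h5,
          AlgEquiv.commutes]
      obtain ⟨s, hs⟩ := h6
      exact ⟨s, hs, (mem_lift_iff (K := K) (k := k) (H := H) (s := s) (t := t) (fun x => DFunLike.congr_fun hs x) σ).1 h5⟩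
    · rintro ⟨s, hs, h5⟩
      exact (mem_lift_iff (K := K) (k := k) (H := H) (s := s) (t := t) (fun x => DFunLike.congr_fun hs x) σ).2 h5
  · intro t ht
    unfold dP
    rw [e2, e2, zcoeff_eq_cnt hB hram hn hnN', zcoeff_eq_cnt hB hram hn hnN', map_mul, hzk]
    have h5 : dcnt K M z n (toG k M t) = 0 := h4 _ fun h6 => ht h6.1
    rw [h3] at h5
    exact h5

omit [IsGalois ℚ M] [IsGalois K M] [IsGalois k M] in
/-- powers of primes which divide `N` -/
theorem CData.claim_N (h2 : CData2 H m N) {zK : Gal(M/K)} {zk : Gal(M/k)} {p : ℕ} (hp : p.Prime)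
    (hpN : p ∣ N) {e : ℕ} (he : 0 < e) : Claim k H m N zK zk (p ^ e) := by
  have h3 : ∀ t : Gal(M/k), cP (fun 𝔞 => (Ideal.absNorm 𝔞).Coprime N)
      (fun 𝔞 => (art 𝔞 : Gal(M/k))) (p ^ e) t = 0 := by
    intro t
    have : IsEmpty {𝔞 : Ideal (𝓞 k) // Ideal.absNorm 𝔞 = p ^ e ∧ (Ideal.absNorm 𝔞).Coprime N ∧
        (art 𝔞 : Gal(M/k)) = t} := by
      refine ⟨fun a => ?_⟩
      have h4 := a.2.2.1
      rw [a.2.1] at h4
      have h5 := Nat.dvd_gcd (dvd_pow_self p he.ne') hpN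
      rw [h4] at h5
      exact hp.one_lt.ne' (Nat.dvd_one.1 h5)
    exact Nat.card_of_isEmpty
  have h4 : ∀ σ : Gal(H/K), cP (fun 𝔞 => IsCoprime 𝔞 m) (fun 𝔞 => (art 𝔞 : Gal(H/K)))
      (p ^ e) σ = 0 := by
    intro σ
    have : IsEmpty {𝔞 : Ideal (𝓞 K) // Ideal.absNorm 𝔞 = p ^ e ∧ IsCoprime 𝔞 m ∧
        (art 𝔞 : Gal(H/K)) = σ} := by
      refine ⟨fun a => ?_⟩
      have hne : a.1 ≠ ⊤ := by
        intro h5
        have h6 := a.2.1
        rw [h5, Ideal.absNorm_top] at h6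
        exact (Nat.one_lt_pow he.ne' hp.one_lt).ne h6
      obtain ⟨𝔮, hmax, hle⟩ := Ideal.exists_le_maximal a.1 hne
      have hp𝔮 : (p : 𝓞 K) ∈ 𝔮 := by
        have h1 := hle (Ideal.absNorm_mem a.1)
        rw [a.2.1, Nat.cast_pow] at h1
        exact hmax.isPrime.mem_of_pow_mem _ h1
      exact (h2.hN p hp).1 hpN 𝔮 hmax.isPrime hp𝔮
        (a.2.2.1.of_isCoprime_of_dvd_left (Ideal.dvd_iff_le.2 hle))
    exact Nat.card_of_isEmpty
  constructor
  · intro σ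
    unfold dP
    simp [h3, h4]
  · intro t _
    unfold dP
    simp [h3]

/-- powers of primes which are ramified in `M` and do not divide `N` -/
theorem CData.claim_ram (h : CData K k H z c m) (h2 : CData2 H m N)
    (hB : ∀ σ τ : Gal(M/k), σ * τ = τ * σ)
    (hAH : ∀ σ τ : Gal(H/K), σ * τ = τ * σ)
    {zK : Gal(M/K)} {zk : Gal(M/k)} (hzK : toG K M zK = z) (hzk : toG k M zk = z)
    {p : ℕ} (hp : p.Prime) (hpN : ¬ p ∣ N) (hd : (p : ℤ) ∣ discr M) (e : ℕ) :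
    Claim k H m N zK zk (p ^ e) := by
  classical
  have h3 := hpN
  rw [h2.hN p hp] at h3
  push Not at h3
  obtain ⟨𝔮, h𝔮, hp𝔮, hco⟩ := h3
  obtain ⟨Q, hQ, hQ𝔮⟩ := exists_over (M := M) 𝔮
  have hpQ : (p : 𝓞 M) ∈ Q := by
    rw [← hQ𝔮, Ideal.mem_comap, map_natCast] at hp𝔮
    exact hp𝔮
  subst hQ𝔮
  obtain ⟨⟨β, hβA, hβB, hβ⟩, hallk, hallK, -⟩ := h.local hp hpQ hco hd
  set P : Ideal (𝓞 k) := Q.comap (algebraMap (𝓞 k) (𝓞 M)) with hP
  have hPp : P.IsPrime := Ideal.comap_isPrime _ _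
  have hpP : (p : 𝓞 k) ∈ P := by
    rw [hP, Ideal.mem_comap, map_natCast]
    exact hpQ
  have hn𝔮 := split_norm h.hK hp hpQ hβ hβA h𝔮 hp𝔮
  have hnP := split_norm h.hk hp hpQ hβ hβB hPp hpP
  have hq0 := split_ne_bot hp hp𝔮
  have hP0 := split_ne_bot hp hpP
  obtain ⟨bK, hbK⟩ := hβA
  obtain ⟨bk, hbk⟩ := hβB
  have hcoe : ∀ e : ℕ, IsCoprime (Q.comap (algebraMap (𝓞 K) (𝓞 M)) ^ e) m := fun e => hco.pow_left
  have hcoek : ∀ e : ℕ, (Ideal.absNorm (P ^ e)).Coprime N := by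
    intro e
    rw [map_pow, hnP]
    exact Nat.Coprime.pow_left e ((Nat.Prime.coprime_iff_not_dvd hp).2 hpN)
  -- the Artin symbols
  have hFk : IsFrob P bk := by
    refine ⟨Q, hQ, rfl, fun x => ?_⟩
    rw [hnP]
    have := hβ x
    rw [← hbk] at this
    exact this
  have hFK : IsFrob (Q.comap (algebraMap (𝓞 K) (𝓞 M))) (AlgEquiv.restrictNormalHom H bK) := by
    refine ⟨Q.comap (algebraMap (𝓞 H) (𝓞 M)), Ideal.comap_isPrime _ _, ?_, fun x => ?_⟩
    · rw [Ideal.comap_comap, ← algebraMap_comp]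
    · rw [hn𝔮, Ideal.mem_comap, map_sub, map_pow]
      have h4 : algebraMap (𝓞 H) (𝓞 M) (AlgEquiv.restrictNormalHom H bK • x) =
          toG K M bK • algebraMap (𝓞 H) (𝓞 M) x := by
        apply RingOfIntegers.ext
        change algebraMap H M ((AlgEquiv.restrictNormalHom H bK) (x : H)) =
          bK (algebraMap H M (x : H))
        exact AlgEquiv.restrictNormal_commutes bK H (x : H)
      rw [h4, hbK]
      exact hβ _
  have haK : (art (Q.comap (algebraMap (𝓞 K) (𝓞 M)) ^ e) : Gal(H/K)) =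
      AlgEquiv.restrictNormalHom H (bK ^ e) := by
    rw [map_pow]
    exact ((artU_spec hAH (pow_ne_zero e hq0) (h.unrAll (hcoe e)) _).1
      (hasArt_pow h𝔮 hq0 hFK e)).symm
  have hak : (art (P ^ e) : Gal(M/k)) = bk ^ e :=
    ((artU_spec hB (pow_ne_zero e hP0) (h.unrAllk h2 (hcoek e)) _).1
      (hasArt_pow hPp hP0 hFk e)).symm
  have eK : ∀ σ : Gal(H/K), cP (fun 𝔞 => IsCoprime 𝔞 m) (fun 𝔞 => (art 𝔞 : Gal(H/K))) (p ^ e) σ =
      if AlgEquiv.restrictNormalHom H (bK ^ e) = σ then 1 else 0 := by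
    intro σ
    rw [cP_one (P := fun 𝔞 => IsCoprime 𝔞 m) (t := fun 𝔞 => (art 𝔞 : Gal(H/K)))
      (fun b c => IsCoprime.mul_left_iff) hp hn𝔮 hcoe hallK, haK]
  have ek : ∀ t : Gal(M/k), cP (fun 𝔞 => (Ideal.absNorm 𝔞).Coprime N)
      (fun 𝔞 => (art 𝔞 : Gal(M/k))) (p ^ e) t = if bk ^ e = t then 1 else 0 := by
    intro t
    rw [cP_one (P := fun 𝔞 : Ideal (𝓞 k) => (Ideal.absNorm 𝔞).Coprime N)
      (t := fun 𝔞 => (art 𝔞 : Gal(M/k))) (fun b c => by
        rw [map_mul]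
        exact Nat.coprime_mul_iff_left) hp hnP hcoek (fun P' h4 h5 _ => hallk P' h4 h5), hak]
  have hbb : ∀ x : M, (bK ^ e) x = (bk ^ e) x := by
    intro x
    have : toG K M (bK ^ e) = toG k M (bk ^ e) := by rw [map_pow, map_pow, hbK, hbk]
    exact DFunLike.congr_fun this x
  have hzb : ∀ x : M, (zK⁻¹ * bK ^ e) x = (zk⁻¹ * bk ^ e) x := by
    intro x
    have : toG K M (zK⁻¹ * bK ^ e) = toG k M (zk⁻¹ * bk ^ e) := by
      rw [map_mul, map_mul, map_inv, map_inv, map_pow, map_pow, hbK, hbk, hzK, hzk]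
    exact DFunLike.congr_fun this x
  constructor
  · intro σ
    unfold dP
    rw [eK, eK]
    simp only [ek]
    rw [Finset.sum_sub_distrib]
    congr 1
    · have h4 := mem_lift_iff (H := H) hbb σ
      push_cast
      rw [Finset.sum_ite_eq]
      exact if_congr h4.symm rfl rfl
    · have h4 := mem_lift_iff (H := H) hzb σ
      have h5 : ∀ t : Gal(M/k), (bk ^ e = zk * t ↔ zk⁻¹ * bk ^ e = t) := fun t =>
        inv_mul_eq_iff_eq_mul.symm
      simp only [h5]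
      push_cast
      rw [Finset.sum_ite_eq]
      refine if_congr ?_ rfl rfl
      rw [h4, map_mul, map_inv]
      exact inv_mul_eq_iff_eq_mul.symm
  · intro t ht
    unfold dP
    rw [ek, ek]
    have h4 : bk ^ e ≠ t := by
      rintro rfl
      apply ht
      rw [map_pow, hbk, ← hbK]
      exact (fixG K M).pow_mem ⟨bK, rfl⟩ e
    have h5 : bk ^ e ≠ zk * t := by
      intro h6
      apply ht
      have h7 : t = zk⁻¹ * bk ^ e := by rw [h6, inv_mul_cancel_left]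
      rw [h7, map_mul, map_inv, map_pow, hbk, hzk]
      refine (fixG K M).mul_mem ((fixG K M).inv_mem h.hz.mem_A) ?_
      rw [← hbK]
      exact (fixG K M).pow_mem ⟨bK, rfl⟩ e
    rw [if_neg h4, if_neg h5]
    simp

omit [Algebra K M] [IsScalarTower K H M] [IsGalois ℚ M] [IsGalois K M] [IsGalois K H] in
/-- a prime number over which one prime of `K` divides `m` and another one does not is ramified -/
theorem CData.dvd_discr_of (h2 : CData2 H m N) {p : ℕ} (hp : p.Prime) (hpN : ¬ p ∣ N)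
    (hpm : p ∣ Ideal.absNorm m) : (p : ℤ) ∣ discr M := by
  by_contra hd
  rw [h2.hN p hp] at hpN
  push Not at hpN
  obtain ⟨𝔮', h𝔮', hp𝔮', hco'⟩ := hpN
  obtain ⟨𝔮, h𝔮, hp𝔮, hco⟩ : ∃ 𝔮 : Ideal (𝓞 K), 𝔮.IsPrime ∧ (p : 𝓞 K) ∈ 𝔮 ∧
      ¬ IsCoprime 𝔮 m := by
    by_contra hcon
    push Not at hcon
    have h3 : IsCoprime (Ideal.span {(p : 𝓞 K)}) m := by
      rw [Ideal.isCoprime_iff_sup_eq]
      by_contra hne
      obtain ⟨𝔮, hmax, hle⟩ := Ideal.exists_le_maximal _ hne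
      have h4 : (p : 𝓞 K) ∈ 𝔮 := hle (Ideal.mem_sup_left (Ideal.mem_span_singleton_self _))
      have h5 := hcon 𝔮 hmax.isPrime h4
      rw [Ideal.isCoprime_iff_sup_eq] at h5
      apply hmax.ne_top
      rw [← h5]
      exact (sup_eq_left.2 (le_sup_right.trans hle)).symm
    -- the norm of `m` is prime to `p`
    have h6 : ∀ 𝔞 : Ideal (𝓞 K), 𝔞 ≠ ⊥ → IsCoprime (Ideal.span {(p : 𝓞 K)}) 𝔞 →
        ¬ p ∣ Ideal.absNorm 𝔞 := by
      intro 𝔞
      induction 𝔞 using UniqueFactorizationMonoid.induction_on_prime with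
      | h₁ => intro h; exact absurd rfl h
      | h₂ x hx =>
        intro _ _ h7
        rw [Ideal.isUnit_iff] at hx
        rw [hx, Ideal.absNorm_top] at h7
        exact hp.one_lt.ne' (Nat.dvd_one.1 h7)
      | h₃ a q _ hq ih =>
        intro h0 hc h7
        rw [map_mul] at h7
        have ha0 : a ≠ ⊥ := by
          rintro rfl
          exact h0 (Ideal.mul_bot _)
        rw [IsCoprime.mul_right_iff] at hc
        rcases (Nat.Prime.dvd_mul hp).1 h7 with h8 | h8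
        · have hqp := Ideal.isPrime_of_prime hq
          obtain ⟨l, hl, hld, hlq⟩ := exists_prime_factor hqp hq.ne_zero
          have h9 : Ideal.absNorm q ∣ l ^ finrank ℤ (𝓞 K) := by
            have := Ideal.absNorm_dvd_absNorm_of_le
              ((Ideal.span_singleton_le_iff_mem (I := q) (x := (l : 𝓞 K))).2 hlq)
            rwa [Ideal.absNorm_span_natCast] at this
          have h10 : p = l := (Nat.prime_dvd_prime_iff_eq hp hl).1 (hp.dvd_of_dvd_pow (h8.trans h9))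
          subst h10
          have h11 := hc.1
          rw [Ideal.isCoprime_iff_sup_eq, sup_eq_right.2
            ((Ideal.span_singleton_le_iff_mem _).2 hlq)] at h11
          exact hqp.ne_top h11
        · exact ih ha0 hc.2 h8
    exact h6 m h2.hm h3 hpm
  refine h2.hc p hp 𝔮 𝔮' h𝔮 h𝔮' hp𝔮 hp𝔮' hco hco' ?_
  intro P hP hP𝔮 hdvd
  have h0 := split_ne_bot hp hp𝔮
  have hpP : (p : 𝓞 H) ∈ P := by
    rw [← hP𝔮, Ideal.mem_comap, map_natCast] at hp𝔮
    exact hp𝔮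
  have hover : P.LiesOver 𝔮 := ⟨hP𝔮.symm⟩
  have hle : 𝔮.map (algebraMap (𝓞 K) (𝓞 H)) ≤ P := by
    rw [Ideal.map_le_iff_le_comap, hP𝔮]
  have h1 := (Ideal.ramificationIdx'_ne_one_iff hle).2 (Ideal.dvd_iff_le.1 hdvd)
  rw [Ideal.ramificationIdx'_eq_ramificationIdx (p := 𝔮) (q := P) h0] at h1
  have hdH : ¬ (p : ℤ) ∣ discr H := fun h3 => hd (h3.trans (discr_dvd_discr H M))
  have h3 := (not_dvd_discr_iff H hp).1 hdH P hP hpP
  rw [ramIdx_tower (F := K) P] at h3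
  exact h1 (Nat.eq_one_of_mul_eq_one_left h3)

/-- the coefficients agree for all `n` -/
theorem CData.claim (h : CData K k H z c m) (h2 : CData2 H m N)
    (hA : ∀ σ τ : Gal(M/K), σ * τ = τ * σ) (hB : ∀ σ τ : Gal(M/k), σ * τ = τ * σ)
    (hAH : ∀ σ τ : Gal(H/K), σ * τ = τ * σ)
    {zK : Gal(M/K)} {zk : Gal(M/k)} (hzK : toG K M zK = z) (hzk : toG k M zk = z)
    (n : ℕ) (hn : n ≠ 0) : Claim k H m N zK zk n := by
  classical
  have hzz := h.hz.sq
  have hzc := h.hz.central z h.hz.mem_A h.hz.mem_B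
  have hkzz : zk * zk = 1 := toG_injective (by rw [map_mul, hzk, hzz, map_one])
  have hKzz : zK * zK = 1 := toG_injective (by rw [map_mul, hzK, hzz, map_one])
  induction n using Nat.recOnPosPrimePosCoprime with
  | prime_pow p e hp he =>
    by_cases hpN : p ∣ N
    · exact CData.claim_N h2 hp hpN he
    · by_cases hd : (p : ℤ) ∣ discr M
      · exact h.claim_ram h2 hB hAH hzK hzk hp hpN hd e
      · have hpm : ¬ p ∣ Ideal.absNorm m := fun h3 => hd (CData.dvd_discr_of h2 hp hpN h3)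
        refine h.claim_good h2 hA hB hAH hzK hzk hn ?_ ?_ ?_
        · exact Nat.Coprime.pow_left e ((Nat.Prime.coprime_iff_not_dvd hp).2 hpN)
        · exact Nat.Coprime.pow_left e ((Nat.Prime.coprime_iff_not_dvd hp).2
            fun h3 => hd (Int.natCast_dvd.2 h3))
        · exact Nat.Coprime.pow_left e ((Nat.Prime.coprime_iff_not_dvd hp).2 hpm)
  | zero => exact absurd rfl hn
  | one =>
    exact h.claim_good h2 hA hB hAH hzK hzk hn (Nat.coprime_one_left _) (Nat.coprime_one_left _)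
      (Nat.coprime_one_left _)
  | coprime a b ha hb hab iha ihb =>
    have ha0 : a ≠ 0 := by omega
    have hb0 : b ≠ 0 := by omega
    obtain ⟨a1, a2⟩ := iha ha0
    obtain ⟨b1, b2⟩ := ihb hb0
    have hmulK := fun (σ : Gal(H/K)) => dP_mul (P := fun 𝔞 : Ideal (𝓞 K) => IsCoprime 𝔞 m)
      (t := fun 𝔞 => (art 𝔞 : Gal(H/K))) (fun b c => IsCoprime.mul_left_iff)
      (fun 𝔟 𝔠 h3 h4 h5 h6 => artU_mul hAH h3 h4 (h.unrAll h5) (h.unrAll h6)) ha0 hb0 hab
      (z := AlgEquiv.restrictNormalHom H zK) (by rw [← map_mul, hKzz, map_one])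
      (fun g => hAH _ _) σ
    have hmulk := fun (t : Gal(M/k)) => dP_mul
      (P := fun 𝔞 : Ideal (𝓞 k) => (Ideal.absNorm 𝔞).Coprime N)
      (t := fun 𝔞 => (art 𝔞 : Gal(M/k))) (fun b c => by
        rw [map_mul]
        exact Nat.coprime_mul_iff_left)
      (fun 𝔟 𝔠 h3 h4 h5 h6 => artU_mul hB h3 h4 (h.unrAllk h2 h5) (h.unrAllk h2 h6)) ha0 hb0 hab
      (z := zk) hkzz (fun g => hB _ _) t
    constructor
    · intro σ
      have h3 := hmulK σ
      simp only [a1, b1] at h3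
      rw [push_conv _ _ a2 σ] at h3
      simp only [← hmulk] at h3
      rw [← Finset.mul_sum] at h3
      exact mul_left_cancel₀ two_ne_zero h3
    · intro t ht
      have h3 := hmulk t
      have h4 : ∑ u : Gal(M/k), dP (fun 𝔞 : Ideal (𝓞 k) => (Ideal.absNorm 𝔞).Coprime N)
          (fun 𝔞 => (art 𝔞 : Gal(M/k))) zk a u *
          dP (fun 𝔞 : Ideal (𝓞 k) => (Ideal.absNorm 𝔞).Coprime N)
          (fun 𝔞 => (art 𝔞 : Gal(M/k))) zk b (u⁻¹ * t) = 0 := by
        refine Finset.sum_eq_zero fun u _ => ?_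
        by_cases hu : toG k M u ∈ fixG K M
        · rw [b2, mul_zero]
          intro hcon
          apply ht
          have := (fixG K M).mul_mem hu hcon
          rwa [← map_mul, mul_inv_cancel_left] at this
        · rw [a2 u hu, zero_mul]
      rw [h4] at h3
      exact (mul_eq_zero.1 h3).resolve_left two_ne_zero

/-- the identity of the coefficients -/
theorem CData.coeff (h : CData K k H z c m) (h2 : CData2 H m N)
    (hA : ∀ σ τ : Gal(M/K), σ * τ = τ * σ) (hB : ∀ σ τ : Gal(M/k), σ * τ = τ * σ)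
    (hAH : ∀ σ τ : Gal(H/K), σ * τ = τ * σ)
    {zK : Gal(M/K)} {zk : Gal(M/k)} (hzK : toG K M zK = z) (hzk : toG k M zk = z)
    (σ : Gal(H/K)) (n : ℕ) (hn : n ≠ 0) :
    (zcI m σ n : ℤ) - zcI m (AlgEquiv.restrictNormalHom H zK * σ) n =
      ∑ t ∈ liftSet k H σ, ((zcoeff N t n : ℤ) - zcoeff N (zk * t) n) := by
  have h3 := (h.claim h2 hA hB hAH hzK hzk n hn).1 σ
  unfold dP at h3
  rw [← zcI_eq_cP hAH (fun 𝔞 _ h3 => h.unrAll h3) hn,
    ← zcI_eq_cP hAH (fun 𝔞 _ h3 => h.unrAll h3) hn] at h3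
  rw [h3]
  refine Finset.sum_congr rfl fun t _ => ?_
  rw [zcoeff_eq_cP hB (fun 𝔞 _ h3 => h.unrAllk h2 h3) hn,
    zcoeff_eq_cP hB (fun 𝔞 _ h3 => h.unrAllk h2 h3) hn]

end main

end Pool.Agent.StarkU
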