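import Pool.Agent.StarkRQ.Sym

/-!
# The partial zeta functions of `M/k` are invariant under conjugation (transport of structure)
-/

set_option autoImplicit false

noncomputable section

open NumberField Module Pool.Agent.StarkRQ
open scoped Pointwise

namespace Pool.Agent.StarkU

theorem absNorm_smul {F : Type*} [Field F] [NumberField F] {G : Type*} [Group G]
    [MulSemiringAction G (𝓞 F)] (g : G) (I : Ideal (𝓞 F)) :
    Ideal.absNorm (g • I) = Ideal.absNorm I := by
  rw [Ideal.absNorm_apply, Ideal.absNorm_apply, Submodule.cardQuot_apply, Submodule.cardQuot_apply]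
  exact Nat.card_congr (Ideal.quotientEquiv I (g • I) (MulSemiringAction.toRingEquiv G _ g)
    rfl).symm.toEquiv

section

variable {k M : Type*} [Field k] [NumberField k] [Field M] [NumberField M] [Algebra k M]
  [IsGalois ℚ M] [IsGalois ℚ k]

omit [IsGalois ℚ M] in
theorem restrict_smulQ (γ : Gal(M/ℚ)) (x : 𝓞 k) :
    algebraMap (𝓞 k) (𝓞 M) (AlgEquiv.restrictNormalHom k γ • x) =
      γ • algebraMap (𝓞 k) (𝓞 M) x := by
  apply RingOfIntegers.ext
  change algebraMap k M ((AlgEquiv.restrictNormalHom k γ) (x : k)) = γ (algebraMap k M (x : k))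
  exact AlgEquiv.restrictNormal_commutes γ k (x : k)

omit [IsGalois ℚ M] in
theorem isFrob_conj {γ : Gal(M/ℚ)} {𝔭 : Ideal (𝓞 k)} {t t' : Gal(M/k)}
    (ht : toG k M t' = γ * toG k M t * γ⁻¹) (h : IsFrob 𝔭 t) :
    IsFrob (AlgEquiv.restrictNormalHom k γ • 𝔭) t' := by
  obtain ⟨Q, hQ, hQ𝔭, hc⟩ := h
  refine ⟨γ • Q, inferInstance, ?_, ?_⟩
  · ext x
    rw [Ideal.mem_comap, Ideal.mem_pointwise_smul_iff_inv_smul_mem,
      Ideal.mem_pointwise_smul_iff_inv_smul_mem, ← hQ𝔭, Ideal.mem_comap, ← map_inv,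
      restrict_smulQ]
  · intro x
    rw [absNorm_smul]
    have h1 : Cong (toG k M t) Q (Ideal.absNorm 𝔭) := hc
    have h2 := h1.conj γ
    rw [← ht] at h2
    exact h2 x

theorem hasArt_conj (hk : finrank ℚ k = 2) [IsGalois k M] {γ : Gal(M/ℚ)} {𝔞 : Ideal (𝓞 k)}
    {t t' : Gal(M/k)} (ht : toG k M t' = γ * toG k M t * γ⁻¹) (h : HasArtinSymbol 𝔞 t) :
    HasArtinSymbol (AlgEquiv.restrictNormalHom k γ • 𝔞) t' := by
  classical
  have hnor : (fixG k M).Normal := Subgroup.normal_of_index_eq_two (fixG_index (M := M) hk)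
  have hex : ∀ s : Gal(M/k), ∃ s' : Gal(M/k), toG k M s' = γ * toG k M s * γ⁻¹ := fun s =>
    hnor.conj_mem _ ⟨s, rfl⟩ γ
  choose f hf using hex
  have hf1 : f 1 = 1 := toG_injective (by rw [hf, map_one, mul_one, mul_inv_cancel])
  have hfm : ∀ a b, f (a * b) = f a * f b := fun a b => toG_injective (by
    rw [hf, map_mul, map_mul, hf, hf]; group)
  obtain ⟨l, hl, rfl, rfl⟩ := h
  set g := AlgEquiv.restrictNormalHom k γ with hg
  have hinj : ∀ 𝔞 : Ideal (𝓞 k), g • 𝔞 = ⊥ → 𝔞 = ⊥ := by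
    intro 𝔞 h1
    rw [← Ideal.absNorm_eq_zero_iff, ← absNorm_smul g, h1, Ideal.absNorm_bot]
  have hsm : ∀ l : List (Ideal (𝓞 k) × Gal(M/k)),
      (l.map fun x => g • x.1).prod = g • (l.map Prod.fst).prod := by
    intro l
    induction l with
    | nil =>
      rw [List.map_nil, List.map_nil, List.prod_nil]
      symm
      rw [Ideal.one_eq_top, ← Ideal.absNorm_eq_one_iff, absNorm_smul, Ideal.absNorm_top]
    | cons a l ih =>
      rw [List.map_cons, List.map_cons, List.prod_cons, List.prod_cons, ih, smul_mul']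
  have hfl : ∀ l : List (Ideal (𝓞 k) × Gal(M/k)),
      (l.map fun x => f x.2).prod = f (l.map Prod.snd).prod := by
    intro l
    induction l with
    | nil => rw [List.map_nil, List.map_nil, List.prod_nil, hf1]
    | cons a l ih => rw [List.map_cons, List.map_cons, List.prod_cons, List.prod_cons, ih, hfm]
  refine ⟨l.map fun x => (g • x.1, f x.2), ?_, ?_, ?_⟩
  · intro x hx
    obtain ⟨y, hy, rfl⟩ := List.mem_map.1 hx
    obtain ⟨h1, h2, h3⟩ := hl y hy
    exact ⟨inferInstance, fun h4 => h2 (hinj _ h4), isFrob_conj (hf _) h3⟩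
  · rw [List.map_map]
    exact hsm l
  · rw [List.map_map]
    refine (hfl l).trans (toG_injective ?_)
    rw [hf, ht]

theorem zcoeff_conj (hk : finrank ℚ k = 2) [IsGalois k M] (N : ℕ) {γ : Gal(M/ℚ)}
    {t t' : Gal(M/k)} (ht : toG k M t' = γ * toG k M t * γ⁻¹) (n : ℕ) :
    zcoeff N t' n = zcoeff N t n := by
  unfold zcoeff
  split_ifs with h
  · symm
    set g := AlgEquiv.restrictNormalHom k γ with hg
    have ht' : toG k M t = γ⁻¹ * toG k M t' * γ⁻¹⁻¹ := by rw [ht]; group
    refine Nat.card_congr ⟨fun a => ⟨g • a.1, by rw [absNorm_smul]; exact a.2.1,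
      hasArt_conj hk ht a.2.2⟩, fun a => ⟨g⁻¹ • a.1, by rw [absNorm_smul]; exact a.2.1, ?_⟩,
      fun a => Subtype.ext (inv_smul_smul g a.1), fun a => Subtype.ext (smul_inv_smul g a.1)⟩
    have := hasArt_conj hk ht' a.2.2
    rwa [map_inv] at this
  · rfl

end

end Pool.Agent.StarkU
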