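import Pool.Agent.StarkU.ArtU
import Pool.Agent.StarkRQ.Coeff
import Pool.Agent.HeckeM.Defs

/-!
# Counting ideals with a multiplicative property: convolution, and the case of one prime
-/

set_option autoImplicit false

noncomputable section

open NumberField Pool.Agent.StarkRQ Pool.Agent.HeckeM

namespace Pool.Agent.StarkU

private theorem conv_norm_dvd {F : Type*} [Field F] [NumberField F] {b : Ideal (𝓞 F)} {m : ℕ}
    (h : b ∣ Ideal.span {(m : 𝓞 F)}) : ∃ d, Ideal.absNorm b ∣ m ^ d := by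
  have h1 : Ideal.absNorm b ∣ Ideal.absNorm (Ideal.span {(m : 𝓞 F)}) := map_dvd Ideal.absNorm h
  rw [Ideal.absNorm_span_singleton] at h1
  have h2 : (Algebra.norm ℤ (m : 𝓞 F)).natAbs = m ^ Module.finrank ℤ (𝓞 F) := by
    have h3 : (m : 𝓞 F) = algebraMap ℤ (𝓞 F) (m : ℤ) := by simp
    rw [h3, Algebra.norm_algebraMap, Int.natAbs_pow, Int.natAbs_natCast]
  rw [h2] at h1
  exact ⟨_, h1⟩

private theorem conv_exists {F : Type*} [Field F] [NumberField F] {a : Ideal (𝓞 F)} {m n : ℕ}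
    (hm : m ≠ 0) (hn : n ≠ 0) (hmn : m.Coprime n) (ha : Ideal.absNorm a = m * n) :
    ∃ b c : Ideal (𝓞 F), Ideal.absNorm b = m ∧ Ideal.absNorm c = n ∧ b * c = a := by
  have h1 : a ∣ Ideal.span {(m : 𝓞 F)} * Ideal.span {(n : 𝓞 F)} := by
    rw [Ideal.span_singleton_mul_span_singleton, Ideal.dvd_span_singleton]
    have h2 := Ideal.absNorm_mem a
    rw [ha] at h2
    exact_mod_cast h2
  obtain ⟨b, c, hb, hc, habc⟩ := exists_dvd_and_dvd_of_dvd_mul h1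
  have hbc : Ideal.absNorm b * Ideal.absNorm c = m * n := by
    rw [← map_mul, ← habc, ha]
  obtain ⟨d, hd⟩ := conv_norm_dvd hb
  obtain ⟨e, he⟩ := conv_norm_dvd hc
  have hbm : Ideal.absNorm b ∣ m := by
    refine Nat.Coprime.dvd_of_dvd_mul_right (k := Ideal.absNorm b) (n := n) ?_ ?_
    · exact Nat.Coprime.coprime_dvd_left hd (Nat.Coprime.pow_left d hmn)
    · exact ⟨_, hbc.symm⟩
  have hcn : Ideal.absNorm c ∣ n := by
    refine Nat.Coprime.dvd_of_dvd_mul_left (k := Ideal.absNorm c) (m := m) ?_ ?_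
    · exact Nat.Coprime.coprime_dvd_left he (Nat.Coprime.pow_left e hmn.symm)
    · exact ⟨Ideal.absNorm b, by rw [← hbc, mul_comm]⟩
  have hb' := Nat.le_of_dvd (Nat.pos_of_ne_zero hm) hbm
  have hc' := Nat.le_of_dvd (Nat.pos_of_ne_zero hn) hcn
  refine ⟨b, c, ?_, ?_, habc.symm⟩
  · by_contra hne
    have hlt : Ideal.absNorm b < m := lt_of_le_of_ne hb' hne
    have : Ideal.absNorm b * Ideal.absNorm c < m * n := by
      calc Ideal.absNorm b * Ideal.absNorm c ≤ Ideal.absNorm b * n := Nat.mul_le_mul_left _ hc'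
        _ < m * n := Nat.mul_lt_mul_of_pos_right hlt (Nat.pos_of_ne_zero hn)
    omega
  · by_contra hne
    have hlt : Ideal.absNorm c < n := lt_of_le_of_ne hc' hne
    have : Ideal.absNorm b * Ideal.absNorm c < m * n := by
      calc Ideal.absNorm b * Ideal.absNorm c ≤ m * Ideal.absNorm c := Nat.mul_le_mul_right _ hb'
        _ < m * n := Nat.mul_lt_mul_of_pos_left hlt (Nat.pos_of_ne_zero hm)
    omega

private theorem conv_dvd {F : Type*} [Field F] [NumberField F] {b b' c c' : Ideal (𝓞 F)}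
    {m n : ℕ} (hmn : m.Coprime n) (hb : Ideal.absNorm b = m) (hc' : Ideal.absNorm c' = n)
    (h : b * c = b' * c') : b ∣ b' := by
  have hco : IsCoprime b c' := by
    rw [Ideal.isCoprime_iff_add, Ideal.one_eq_top, Ideal.eq_top_iff_one]
    have h1 : (m : 𝓞 F) ∈ b := by
      rw [← hb]
      exact Ideal.absNorm_mem b
    have h2 : (n : 𝓞 F) ∈ c' := by
      rw [← hc']
      exact Ideal.absNorm_mem c'
    obtain ⟨u, v, huv⟩ := Nat.isCoprime_iff_coprime.mpr hmn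
    have h3 : (1 : 𝓞 F) = (u : 𝓞 F) * m + (v : 𝓞 F) * n := by exact_mod_cast huv.symm
    rw [h3]
    exact Submodule.add_mem_sup (Ideal.mul_mem_left _ _ h1) (Ideal.mul_mem_left _ _ h2)
  exact hco.dvd_of_dvd_mul_right (h ▸ Dvd.intro c rfl)

section

variable {F : Type*} [Field F] [NumberField F] {G : Type*} [Group G]

/-- the number of ideals `a` of norm `n` with `P a` and `t a = g` -/
def cP (P : Ideal (𝓞 F) → Prop) (t : Ideal (𝓞 F) → G) (n : ℕ) (g : G) : ℕ :=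
  Nat.card {a : Ideal (𝓞 F) // Ideal.absNorm a = n ∧ P a ∧ t a = g}

/-- the difference of the numbers for `g` and `z g` -/
def dP (P : Ideal (𝓞 F) → Prop) (t : Ideal (𝓞 F) → G) (z : G) (n : ℕ) (g : G) : ℤ :=
  (cP P t n g : ℤ) - cP P t n (z * g)

theorem cP_mul [Fintype G] {P : Ideal (𝓞 F) → Prop} {t : Ideal (𝓞 F) → G}
    (hP : ∀ b c : Ideal (𝓞 F), P (b * c) ↔ P b ∧ P c)
    (ht : ∀ b c : Ideal (𝓞 F), b ≠ ⊥ → c ≠ ⊥ → P b → P c → t (b * c) = t b * t c)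
    {m n : ℕ} (hm : m ≠ 0) (hn : n ≠ 0) (hmn : m.Coprime n) (g : G) :
    cP P t (m * n) g = ∑ h : G, cP P t m h * cP P t n (h⁻¹ * g) := by
  have hfin : ∀ (k : ℕ) (h : G),
      Finite {b : Ideal (𝓞 F) // Ideal.absNorm b = k ∧ P b ∧ t b = h} := by
    intro k h
    have h1 : {I : Ideal (𝓞 F) | Ideal.absNorm I = k}.Finite := Ideal.finite_setOfPred_absNorm_eq k
    exact (h1.subset (t := {I : Ideal (𝓞 F) | Ideal.absNorm I = k ∧ P I ∧ t I = h})
      fun I hI => hI.1).to_subtype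
  have hmul : ∀ b c : Ideal (𝓞 F), Ideal.absNorm b = m → Ideal.absNorm c = n → P b → P c →
      t (b * c) = t b * t c := by
    intro b c hb hc hPb hPc
    refine ht b c ?_ ?_ hPb hPc
    · rintro rfl
      exact hm (by rw [← hb, Ideal.absNorm_bot])
    · rintro rfl
      exact hn (by rw [← hc, Ideal.absNorm_bot])
  let f : (Σ h : G, {b : Ideal (𝓞 F) // Ideal.absNorm b = m ∧ P b ∧ t b = h} ×
      {c : Ideal (𝓞 F) // Ideal.absNorm c = n ∧ P c ∧ t c = h⁻¹ * g}) →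
      {a : Ideal (𝓞 F) // Ideal.absNorm a = m * n ∧ P a ∧ t a = g} := fun x =>
    ⟨x.2.1.1 * x.2.2.1, by
      rw [map_mul, x.2.1.2.1, x.2.2.2.1, hmul _ _ x.2.1.2.1 x.2.2.2.1 x.2.1.2.2.1 x.2.2.2.2.1,
        x.2.1.2.2.2, x.2.2.2.2.2, mul_inv_cancel_left, hP]
      exact ⟨rfl, ⟨x.2.1.2.2.1, x.2.2.2.2.1⟩, rfl⟩⟩
  have hf : Function.Bijective f := by
    constructor
    · rintro ⟨h, ⟨b, hb, hPb, hbh⟩, ⟨c, hc, hPc, hch⟩⟩ ⟨h', ⟨b', hb', hPb', hbh'⟩,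
        ⟨c', hc', hPc', hch'⟩⟩ hxy
      have h1 : b * c = b' * c' := congrArg Subtype.val hxy
      have h2 : b = b' := dvd_antisymm (conv_dvd hmn hb hc' h1) (conv_dvd hmn hb' hc h1.symm)
      subst h2
      have h3 : b ≠ 0 := by
        rintro rfl
        exact hm (by rw [← hb]; exact Ideal.absNorm_bot)
      have h4 : c = c' := mul_left_cancel₀ h3 h1
      subst h4
      subst hbh
      subst hbh'
      rfl
    · rintro ⟨a, ha, hPa, hag⟩
      obtain ⟨b, c, hb, hc, habc⟩ := conv_exists hm hn hmn ha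
      rw [← habc, hP] at hPa
      refine ⟨⟨t b, ⟨b, hb, hPa.1, rfl⟩, ⟨c, hc, hPa.2, ?_⟩⟩, Subtype.ext habc⟩
      rw [eq_inv_mul_iff_mul_eq, ← hmul b c hb hc hPa.1 hPa.2, habc, hag]
  unfold cP
  rw [← Nat.card_congr (Equiv.ofBijective f hf), Nat.card_sigma]
  exact Finset.sum_congr rfl fun h _ => Nat.card_prod _ _

theorem dP_z_mul {P : Ideal (𝓞 F) → Prop} {t : Ideal (𝓞 F) → G} {z : G} (hz : z * z = 1) (n : ℕ)
    (g : G) : dP P t z n (z * g) = - dP P t z n g := by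
  unfold dP
  rw [← mul_assoc, hz, one_mul]
  ring

theorem dP_mul [Fintype G] {P : Ideal (𝓞 F) → Prop} {t : Ideal (𝓞 F) → G}
    (hP : ∀ b c : Ideal (𝓞 F), P (b * c) ↔ P b ∧ P c)
    (ht : ∀ b c : Ideal (𝓞 F), b ≠ ⊥ → c ≠ ⊥ → P b → P c → t (b * c) = t b * t c)
    {m n : ℕ} (hm : m ≠ 0) (hn : n ≠ 0) (hmn : m.Coprime n) {z : G} (hz : z * z = 1)
    (hzc : ∀ g, z * g = g * z) (g : G) :
    2 * dP P t z (m * n) g = ∑ h : G, dP P t z m h * dP P t z n (h⁻¹ * g) := by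
  have h1 : dP P t z (m * n) g = ∑ h : G, (cP P t m h : ℤ) * dP P t z n (h⁻¹ * g) := by
    unfold dP
    rw [cP_mul hP ht hm hn hmn, cP_mul hP ht hm hn hmn]
    push_cast
    rw [← Finset.sum_sub_distrib]
    refine Finset.sum_congr rfl fun h _ => ?_
    rw [mul_sub]
    congr 4
    rw [← mul_assoc, ← mul_assoc, hzc]
  have h2 : ∑ h : G, (cP P t m (z * h) : ℤ) * dP P t z n (h⁻¹ * g) =
      - ∑ h : G, (cP P t m h : ℤ) * dP P t z n (h⁻¹ * g) := by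
    rw [← Finset.sum_neg_distrib]
    refine Fintype.sum_equiv (Equiv.mulLeft z) _ _ fun h => ?_
    simp only [Equiv.coe_mulLeft]
    have hzi : z⁻¹ = z := inv_eq_of_mul_eq_one_left hz
    rw [mul_inv_rev, hzi, ← hzc, mul_assoc, dP_z_mul hz]
    ring
  have h3 : ∑ h : G, dP P t z m h * dP P t z n (h⁻¹ * g) =
      ∑ h : G, (cP P t m h : ℤ) * dP P t z n (h⁻¹ * g) -
      ∑ h : G, (cP P t m (z * h) : ℤ) * dP P t z n (h⁻¹ * g) := by
    rw [← Finset.sum_sub_distrib]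
    refine Finset.sum_congr rfl fun h _ => ?_
    unfold dP
    ring
  rw [h3, h2, ← h1]
  ring

/-- if there is only one prime over `p` with the property, the ideals of norm a power of `p` are
its powers -/
theorem eq_pow_of_one {P : Ideal (𝓞 F) → Prop} (hP : ∀ b c : Ideal (𝓞 F), P (b * c) ↔ P b ∧ P c)
    {p : ℕ} (hp : p.Prime) {𝔮 : Ideal (𝓞 F)} (hn : Ideal.absNorm 𝔮 = p)
    (hall : ∀ 𝔭 : Ideal (𝓞 F), 𝔭.IsPrime → (p : 𝓞 F) ∈ 𝔭 → P 𝔭 → 𝔭 = 𝔮) :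
    ∀ (e : ℕ) (𝔞 : Ideal (𝓞 F)), Ideal.absNorm 𝔞 = p ^ e → P 𝔞 → 𝔞 = 𝔮 ^ e := by
  intro e
  induction e with
  | zero =>
    intro 𝔞 h _
    rw [pow_zero, Ideal.absNorm_eq_one_iff] at h
    rw [h, pow_zero, Ideal.one_eq_top]
  | succ e ih =>
    intro 𝔞 h hPa
    have hne : 𝔞 ≠ ⊤ := by
      rintro rfl
      rw [Ideal.absNorm_top] at h
      exact (Nat.one_lt_pow (by omega) hp.one_lt).ne h
    obtain ⟨𝔭, hmax, hle⟩ := Ideal.exists_le_maximal 𝔞 hne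
    have hp𝔭 : (p : 𝓞 F) ∈ 𝔭 := by
      have h1 := hle (Ideal.absNorm_mem 𝔞)
      rw [h, Nat.cast_pow] at h1
      exact hmax.isPrime.mem_of_pow_mem _ h1
    obtain ⟨𝔟, hb⟩ := Ideal.dvd_iff_le.2 hle
    rw [hb, hP] at hPa
    obtain rfl : 𝔭 = 𝔮 := hall 𝔭 hmax.isPrime hp𝔭 hPa.1
    have h4 : Ideal.absNorm 𝔟 = p ^ e := by
      rw [hb, map_mul, hn, pow_succ'] at h
      exact Nat.eq_of_mul_eq_mul_left hp.pos h
    rw [hb, ih 𝔟 h4 hPa.2, pow_succ']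

omit [Group G] in
theorem cP_one {P : Ideal (𝓞 F) → Prop} {t : Ideal (𝓞 F) → G}
    (hP : ∀ b c : Ideal (𝓞 F), P (b * c) ↔ P b ∧ P c) {p : ℕ} (hp : p.Prime) {𝔮 : Ideal (𝓞 F)}
    (hn : Ideal.absNorm 𝔮 = p) (hPq : ∀ e : ℕ, P (𝔮 ^ e))
    (hall : ∀ 𝔭 : Ideal (𝓞 F), 𝔭.IsPrime → (p : 𝓞 F) ∈ 𝔭 → P 𝔭 → 𝔭 = 𝔮) (e : ℕ) (g : G)
    [Decidable (t (𝔮 ^ e) = g)] :
    cP P t (p ^ e) g = if t (𝔮 ^ e) = g then 1 else 0 := by
  unfold cP
  have key := eq_pow_of_one hP hp hn hall e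
  split_ifs with h
  · have : Unique {a : Ideal (𝓞 F) // Ideal.absNorm a = p ^ e ∧ P a ∧ t a = g} :=
      ⟨⟨⟨𝔮 ^ e, by rw [map_pow, hn], hPq e, h⟩⟩, fun a => Subtype.ext (key a.1 a.2.1 a.2.2.1)⟩
    exact Nat.card_unique
  · have : IsEmpty {a : Ideal (𝓞 F) // Ideal.absNorm a = p ^ e ∧ P a ∧ t a = g} := by
      refine ⟨fun a => h ?_⟩
      rw [← key a.1 a.2.1 a.2.2.1]
      exact a.2.2.2
    exact Nat.card_of_isEmpty

end

end Pool.Agent.StarkU
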