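import Pool.Agent.StarkU.ExactU
import Pool.Agent.StarkU.Closure2

/-!
The conjecture for the exact set of primes: reduction to the Galois closure of `H`.
-/

set_option autoImplicit false

noncomputable section

open NumberField Module Pool.Agent.StarkRQ Pool.Agent.HeckeM

namespace Pool.Agent.StarkU

/-- the conjecture for the exact set of primes -/
theorem exact_main {M : Type} [Field M] [NumberField M] [IsGalois ℚ M]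
    {K k H : Type} [Field K] [NumberField K] [Field k] [NumberField k] [Field H] [NumberField H]
    [Algebra K M] [Algebra k M] [Algebra K H] [Algebra H M] [IsScalarTower K H M]
    [IsTotallyReal K] [IsTotallyComplex k] (hK : finrank ℚ K = 2) (hk : finrank ℚ k = 2)
    [IsAbelianGalois K M] [IsAbelianGalois k M] (ι : M →+* ℂ)
    (hH : ∀ y : H, (ι (algebraMap H M y)).im = 0)
    (ι₂ : K →+* ℝ) (hι₂ : ∃ x : K, ((ι₂ x : ℝ) : ℂ) ≠ ι (algebraMap K M x))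
    {m : Ideal (𝓞 K)} (h0 : m ≠ ⊥)
    (hur : ∀ 𝔓 : Ideal (𝓞 H), 𝔓.IsPrime → 𝔓 ≠ ⊥ →
      ¬ 𝔓.comap (algebraMap (𝓞 K) (𝓞 H)) ∣ m →
      ¬ 𝔓 ^ 2 ∣ (𝔓.comap (algebraMap (𝓞 K) (𝓞 H))).map (algebraMap (𝓞 K) (𝓞 H)))
    (hmod : ∀ α : 𝓞 K, α - 1 ∈ m → 0 < ι₂ (α : K) →
      HasArtinSymbol (Ideal.span {α}) (1 : Gal(H/K)))
    (ha : ∃ p : ℕ, p.Prime ∧ ∀ 𝔮 : Ideal (𝓞 K), 𝔮.IsPrime → (p : 𝓞 K) ∈ 𝔮 → 𝔮 ∣ m)
    (hb : ∀ p : ℕ, p.Prime → (p : ℤ) ∣ discr K → ¬ (p : ℤ) ∣ discr k → ∀ 𝔮 : Ideal (𝓞 K),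
      𝔮.IsPrime → (p : 𝓞 K) ∈ 𝔮 → 𝔮 ∣ m)
    (hc : ∀ 𝔮 𝔮' : Ideal (𝓞 K), 𝔮.IsPrime → 𝔮'.IsPrime → 𝔮 ∣ m → ¬ 𝔮' ∣ m →
      (∃ p : ℕ, p.Prime ∧ (p : 𝓞 K) ∈ 𝔮 ∧ (p : 𝓞 K) ∈ 𝔮') →
      ∃ 𝔓 : Ideal (𝓞 H), 𝔓.IsPrime ∧ 𝔓.comap (algebraMap (𝓞 K) (𝓞 H)) = 𝔮 ∧
        𝔓 ^ 2 ∣ 𝔮.map (algebraMap (𝓞 K) (𝓞 H))) :
    ∃ (Z : Gal(H/K) → ℂ → ℂ) (ε : Gal(H/K) → (𝓞 H)ˣ),
      (∀ σ, IsPZ m σ (Z σ) ∧
        ι (algebraMap H M (ε σ : 𝓞 H)) = Complex.exp (-2 * deriv (Z σ) 0)) ∧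
      (∀ ρ σ, ρ ((ε σ : 𝓞 H) : H) = ((ε (ρ * σ) : 𝓞 H) : H)) ∧
      (∃ (E : Type) (_ : Field E) (_ : Algebra K E) (_ : Algebra H E) (_ : IsScalarTower K H E),
        IsAbelianGalois K E ∧ ∀ σ, ∃ y : E, y ^ 2 = algebraMap H E ((ε σ : 𝓞 H) : H)) ∧
      ∀ g : H →+* ℂ, (∃ x : K, g (algebraMap K H x) ≠ ι (algebraMap K M x)) →
        ∀ σ, ‖g ((ε σ : 𝓞 H) : H)‖ = 1 := by
  by_cases hN : conjFix M H ≤ fixG k M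
  · obtain ⟨M', i1, i2, i3, i4, i5, i6, i7, i8, i9, j, hj, hcl⟩ := exists_closure (K := K) hN
    have hjK : ∀ x : K, j (algebraMap K M' x) = algebraMap K M x := fun x => by
      rw [IsScalarTower.algebraMap_apply K H M', hj, ← IsScalarTower.algebraMap_apply K H M]
    have h1 := exact_closure (M := M') (k := k) hK hk (ι.comp j)
      (fun y => by rw [RingHom.comp_apply, hj]; exact hH y) hcl ι₂
      (by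
        obtain ⟨x, hx⟩ := hι₂
        exact ⟨x, by rw [RingHom.comp_apply, hjK]; exact hx⟩) h0 hur hmod ha hb hc
    obtain ⟨Z, ε, h2, h3, h4, h5⟩ := h1
    refine ⟨Z, ε, fun σ => ⟨(h2 σ).1, ?_⟩, h3, h4, fun g hg => h5 g ?_⟩
    · have h6 := (h2 σ).2
      rwa [RingHom.comp_apply, hj] at h6
    · obtain ⟨x, hx⟩ := hg
      exact ⟨x, by rw [RingHom.comp_apply, hjK]; exact hx⟩
  · obtain ⟨n, hn, hnk⟩ := SetLike.not_le_iff_exists.1 hN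
    have hcomap : ∀ 𝔓 : Ideal (𝓞 H), 𝔓 ≠ ⊥ → 𝔓.comap (algebraMap (𝓞 K) (𝓞 H)) ≠ ⊥ :=
      fun 𝔓 h1 h3 => h1 (Ideal.eq_bot_of_comap_eq_bot h3)
    have h1 : m ≠ ⊤ := by
      rintro rfl
      obtain ⟨p, hp, hpa⟩ := ha
      obtain ⟨𝔮, h𝔮, hp𝔮⟩ := exists_prime_over (M := K) hp
      exact h𝔮.ne_top (top_le_iff.1 (Ideal.dvd_iff_le.1 (hpa 𝔮 h𝔮 hp𝔮)))
    refine case_real (M := M) (k := k) hK hk ι hH ι₂ hι₂ h0 h1 ?_ hmod hn hnk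
    intro 𝔓 h2 h3 h4
    exact hur 𝔓 h2 h3 fun h5 =>
      (not_isCoprime_iff (Ideal.comap_isPrime _ _) (hcomap 𝔓 h3)).2 h5 h4

end Pool.Agent.StarkU
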