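import Pool.Agent.StarkU.ArtU
import Pool.Agent.StarkRQ.Sym

/-!
# Inertia groups in `Gal(M/ℚ)` and in `Gal(M/F)`
-/

set_option autoImplicit false

noncomputable section

open NumberField Module Pool.Agent.StarkRQ
open scoped Pointwise

namespace Pool.Agent.StarkU

section basic

variable {M : Type*} [Field M] [NumberField M]

/-- `g` is in the inertia group of `Q` -/
def InI (Q : Ideal (𝓞 M)) (g : Gal(M/ℚ)) : Prop := ∀ x : 𝓞 M, g • x - x ∈ Q

theorem inI_iff {Q : Ideal (𝓞 M)} {g : Gal(M/ℚ)} : InI Q g ↔ Cong g Q 1 := by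
  unfold InI Cong
  simp only [pow_one]

theorem InI.one (Q : Ideal (𝓞 M)) : InI Q 1 := by
  intro x
  simp

theorem InI.mul {Q : Ideal (𝓞 M)} {g h : Gal(M/ℚ)} (hg : InI Q g) (hh : InI Q h) :
    InI Q (g * h) := by
  rw [inI_iff] at *
  exact hg.mul hh

theorem InI.inv {Q : Ideal (𝓞 M)} {g : Gal(M/ℚ)} (hg : InI Q g) : InI Q g⁻¹ := by
  intro x
  have h := Q.neg_mem (hg (g⁻¹ • x))
  rw [smul_inv_smul, neg_sub] at h
  exact h

theorem InI.conj {Q : Ideal (𝓞 M)} {g : Gal(M/ℚ)} (hg : InI Q g) (γ : Gal(M/ℚ)) :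
    InI (γ • Q) (γ * g * γ⁻¹) := by
  rw [inI_iff] at *
  exact hg.conj γ

theorem smul_le_of_forall {Q : Ideal (𝓞 M)} {g : Gal(M/ℚ)} (h : ∀ x ∈ Q, g • x ∈ Q) :
    g • Q ≤ Q := by
  intro x hx
  rw [Ideal.mem_pointwise_smul_iff_inv_smul_mem] at hx
  have := h _ hx
  rwa [smul_inv_smul] at this

theorem InI.smul_eq {Q : Ideal (𝓞 M)} {g : Gal(M/ℚ)} (hg : InI Q g) : g • Q = Q := by
  have key : ∀ {g : Gal(M/ℚ)}, InI Q g → g • Q ≤ Q := by
    intro g hg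
    refine smul_le_of_forall fun x hx => ?_
    have := Q.add_mem (hg x) hx
    rwa [sub_add_cancel] at this
  refine le_antisymm (key hg) ?_
  have h1 := key hg.inv
  intro x hx
  rw [Ideal.mem_pointwise_smul_iff_inv_smul_mem]
  exact h1 (Ideal.smul_mem_pointwise_smul _ _ _ hx)

theorem prime_ne_bot {p : ℕ} (hp : p.Prime) {Q : Ideal (𝓞 M)} (hpQ : (p : 𝓞 M) ∈ Q) : Q ≠ ⊥ := by
  rintro rfl
  have h1 : (p : 𝓞 M) = 0 := by simpa using hpQ
  exact hp.ne_zero (by exact_mod_cast h1)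

theorem cong_smul_eq {p : ℕ} (hp : p.Prime) {Q : Ideal (𝓞 M)} [Q.IsPrime] (hpQ : (p : 𝓞 M) ∈ Q)
    {q : ℕ} (hq : q ≠ 0) {φ : Gal(M/ℚ)} (hφ : Cong φ Q q) : φ • Q = Q := by
  have h1 : φ • Q ≤ Q := by
    refine smul_le_of_forall fun x hx => ?_
    have := Q.add_mem (hφ x) (Ideal.pow_mem_of_mem Q hx q (Nat.pos_of_ne_zero hq))
    rwa [sub_add_cancel] at this
  have h2 : (p : 𝓞 M) ∈ φ • Q := by
    rw [Ideal.mem_pointwise_smul_iff_inv_smul_mem]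
    have : φ⁻¹ • (p : 𝓞 M) = (p : 𝓞 M) := by
      apply RingOfIntegers.ext
      change φ⁻¹ (algebraMap (𝓞 M) M (p : 𝓞 M)) = algebraMap (𝓞 M) M (p : 𝓞 M)
      rw [map_natCast, map_natCast]
    rw [this]
    exact hpQ
  have h3 : (φ • Q).IsMaximal := (inferInstance : (φ • Q).IsPrime).isMaximal (prime_ne_bot hp h2)
  exact h3.eq_of_le (Ideal.IsPrime.ne_top inferInstance) h1

end basic

section card

variable {M : Type*} [Field M] [NumberField M] [IsGalois ℚ M]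

theorem card_inertia_int {p : ℕ} (hp : p.Prime) {Q : Ideal (𝓞 M)} [Q.IsPrime]
    (hpQ : (p : 𝓞 M) ∈ Q) : Nat.card (Q.inertia Gal(M/ℚ)) = Q.ramificationIdx ℤ := by
  have hpp : Prime (p : ℤ) := Nat.prime_iff_prime_int.mp hp
  have hpQ' : ((p : ℤ) : 𝓞 M) ∈ Q := by exact_mod_cast hpQ
  have : Q.LiesOver (Ideal.span {(p : ℤ)}) :=
    (Ideal.liesOver_span_iff (Ideal.IsPrime.ne_top inferInstance) hpp).mpr hpQ'
  have hmax : (Ideal.span {(p : ℤ)}).IsMaximal :=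
    PrincipalIdealRing.isMaximal_of_irreducible hpp.irreducible
  have hfin : Finite (ℤ ⧸ Ideal.span {(p : ℤ)}) := Ideal.finiteQuotientOfFreeOfNeBot _
    (by simpa using hp.ne_zero)
  have hfin' : Finite (Ideal.span {(p : ℤ)}).ResidueField :=
    Finite.of_surjective _ (Ideal.bijective_algebraMap_quotient_residueField
      (Ideal.span {(p : ℤ)})).2
  rw [Ideal.card_inertia_eq_ramificationIdxIn (Ideal.span {(p : ℤ)}) Q,
    Ideal.ramificationIdxIn_eq_ramificationIdx (Ideal.span {(p : ℤ)}) Q Gal(M/ℚ)]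

variable {F : Type*} [Field F] [NumberField F] [Algebra F M] [IsGalois F M]

omit [IsGalois ℚ M] in
theorem card_inertia_over {Q : Ideal (𝓞 M)} [hQ : Q.IsPrime] (h0 : Q ≠ ⊥) :
    Nat.card (Q.inertia Gal(M/F)) = Q.ramificationIdx (𝓞 F) := by
  set 𝔮 : Ideal (𝓞 F) := Q.comap (algebraMap (𝓞 F) (𝓞 M)) with h𝔮
  have hq0 : 𝔮 ≠ ⊥ := fun h => h0 (Ideal.eq_bot_of_comap_eq_bot h)
  have hqp : 𝔮.IsPrime := Ideal.comap_isPrime _ _
  have hmax : 𝔮.IsMaximal := hqp.isMaximal hq0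
  have hover : Q.LiesOver 𝔮 := ⟨rfl⟩
  have hfin : Finite (𝓞 F ⧸ 𝔮) := Ideal.finiteQuotientOfFreeOfNeBot 𝔮 hq0
  have hfin' : Finite 𝔮.ResidueField :=
    Finite.of_surjective _ (Ideal.bijective_algebraMap_quotient_residueField 𝔮).2
  rw [Ideal.card_inertia_eq_ramificationIdxIn 𝔮 Q,
    Ideal.ramificationIdxIn_eq_ramificationIdx 𝔮 Q Gal(M/F)]

omit [IsGalois ℚ M] [IsGalois F M] in
theorem ramIdx_tower (Q : Ideal (𝓞 M)) :
    Q.ramificationIdx ℤ = (Q.comap (algebraMap (𝓞 F) (𝓞 M))).ramificationIdx ℤ *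
      Q.ramificationIdx (𝓞 F) := by
  have hover : Q.LiesOver (Q.comap (algebraMap (𝓞 F) (𝓞 M))) := ⟨rfl⟩
  exact Ideal.ramificationIdx_tower (R := ℤ) (Q.comap (algebraMap (𝓞 F) (𝓞 M))) Q

omit [IsGalois ℚ M] [IsGalois F M] in
theorem not_dvd_discr_iff (F : Type*) [Field F] [NumberField F] {p : ℕ} (hp : p.Prime) :
    ¬ (p : ℤ) ∣ discr F ↔ ∀ P : Ideal (𝓞 F), P.IsPrime → (p : 𝓞 F) ∈ P →
      P.ramificationIdx ℤ = 1 := by
  have hpp : Prime (p : ℤ) := Nat.prime_iff_prime_int.mp hp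
  rw [NumberField.not_dvd_discr_iff_forall_mem F (𝓞 F) hpp]
  refine forall_congr' fun P => forall_congr' fun hP => ?_
  rw [Int.cast_natCast]
  refine forall_congr' fun _ => ?_
  exact Ideal.ramificationIdx_eq_one_iff.symm

/-- the inertia group is contained in `Gal(M/F)` if and only if the prime of `F` is unramified
over `ℚ` -/
theorem inertia_le_iff {p : ℕ} (hp : p.Prime) {Q : Ideal (𝓞 M)} [Q.IsPrime]
    (hpQ : (p : 𝓞 M) ∈ Q) : (∀ t, InI Q t → t ∈ fixG F M) ↔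
      (Q.comap (algebraMap (𝓞 F) (𝓞 M))).ramificationIdx ℤ = 1 := by
  classical
  have h0 := prime_ne_bot hp hpQ
  have h1 := card_inertia_int hp hpQ
  have h2 := card_inertia_over (F := F) h0
  have h3 := ramIdx_tower (F := F) Q
  rw [← h1, ← h2] at h3
  have hpos : 0 < Nat.card (Q.inertia Gal(M/F)) := Nat.card_pos
  let f : Q.inertia Gal(M/F) → Q.inertia Gal(M/ℚ) := fun g => ⟨toG F M g.1, g.2⟩
  have hf : Function.Injective f := by
    intro a b hab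
    exact Subtype.ext (toG_injective (congrArg Subtype.val hab))
  constructor
  · intro h
    have hs : Function.Surjective f := by
      rintro ⟨t, ht⟩
      obtain ⟨s, rfl⟩ := h t ht
      exact ⟨⟨s, ht⟩, rfl⟩
    have h4 := Nat.card_congr (Equiv.ofBijective f ⟨hf, hs⟩)
    rw [← h4] at h3
    exact Nat.eq_of_mul_eq_mul_right hpos (by rw [one_mul]; exact h3.symm)
  · intro h t ht
    rw [h, one_mul] at h3
    have hb := (Nat.bijective_iff_injective_and_card f).2 ⟨hf, h3.symm⟩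
    obtain ⟨s, hs⟩ := hb.2 ⟨t, ht⟩
    exact ⟨s.1, congrArg Subtype.val hs⟩

theorem dvd_discr_of_inI {p : ℕ} (hp : p.Prime) {Q : Ideal (𝓞 M)} [Q.IsPrime]
    (hpQ : (p : 𝓞 M) ∈ Q) {t : Gal(M/ℚ)} (ht : InI Q t) (htF : t ∉ fixG F M) :
    (p : ℤ) ∣ discr F := by
  by_contra h
  rw [not_dvd_discr_iff F hp] at h
  refine htF ((inertia_le_iff (F := F) hp hpQ).2 (h _ (Ideal.comap_isPrime _ _) ?_) t ht)
  rw [Ideal.mem_comap, map_natCast]
  exact hpQ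

theorem exists_inI_of_dvd_discr (hF : finrank ℚ F = 2) {p : ℕ} (hp : p.Prime) {Q : Ideal (𝓞 M)}
    [Q.IsPrime] (hpQ : (p : 𝓞 M) ∈ Q) (hd : (p : ℤ) ∣ discr F) :
    ∃ t, InI Q t ∧ t ∉ fixG F M := by
  by_contra hcon
  push Not at hcon
  refine (not_dvd_discr_iff F hp).2 ?_ hd
  intro P hP hpP
  obtain ⟨Q', hQ', hQ'P⟩ := exists_over (M := M) P
  have hpQ' : (p : 𝓞 M) ∈ Q' := by
    rw [← hQ'P, Ideal.mem_comap, map_natCast] at hpP
    exact hpP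
  obtain ⟨γ, hγ⟩ := exists_smul_eq hp hpQ' hpQ
  rw [← hQ'P]
  refine (inertia_le_iff (F := F) hp hpQ').1 fun t ht => ?_
  have hnor : (fixG F M).Normal := Subgroup.normal_of_index_eq_two (fixG_index (M := M) hF)
  have h1 := ht.conj γ
  rw [hγ] at h1
  have h2 := hnor.conj_mem _ (hcon _ h1) γ⁻¹
  rwa [inv_inv, show γ⁻¹ * (γ * t * γ⁻¹) * γ = t by group] at h2

theorem exists_inI_ne_one {p : ℕ} (hp : p.Prime) {Q : Ideal (𝓞 M)} [Q.IsPrime]
    (hpQ : (p : 𝓞 M) ∈ Q) (hd : (p : ℤ) ∣ discr M) : ∃ t, InI Q t ∧ t ≠ 1 := by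
  by_contra hcon
  push Not at hcon
  refine (not_dvd_discr_iff M hp).2 ?_ hd
  intro Q' hQ' hpQ'
  obtain ⟨γ, hγ⟩ := exists_smul_eq hp hpQ' hpQ
  rw [← card_inertia_int hp hpQ', Nat.card_eq_one_iff_unique]
  refine ⟨⟨?_⟩, ⟨1⟩⟩
  have key : ∀ a : Q'.inertia Gal(M/ℚ), a = 1 := by
    rintro ⟨t, ht⟩
    have ht' : InI Q' t := ht
    have h1 := ht'.conj γ
    rw [hγ] at h1
    have h2 := hcon _ h1
    apply Subtype.ext
    change t = 1
    have h3 : t = γ⁻¹ * (γ * t * γ⁻¹) * γ := by group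
    rw [h3, h2]
    group
  intro a b
  rw [key a, key b]

omit [IsGalois ℚ M] in
/-- a prime of `F` is unramified in `M` if the inertia groups over it are trivial in `Gal(M/F)` -/
theorem unrAt_of_inI {𝔮 : Ideal (𝓞 F)} (h0 : 𝔮 ≠ ⊥)
    (h : ∀ Q : Ideal (𝓞 M), Q.IsPrime → Q.comap (algebraMap (𝓞 F) (𝓞 M)) = 𝔮 →
      ∀ t, InI Q t → t ∈ fixG F M → t = 1) : UnrAt M 𝔮 := by
  intro Q hQ hQ𝔮 hdvd
  have hQ0 : Q ≠ ⊥ := by
    rintro rfl
    apply h0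
    rw [← hQ𝔮]
    exact Ideal.comap_bot_of_injective _ (RingOfIntegers.algebraMap.injective F M)
  have hover : Q.LiesOver 𝔮 := ⟨hQ𝔮.symm⟩
  have hle : 𝔮.map (algebraMap (𝓞 F) (𝓞 M)) ≤ Q := by
    rw [Ideal.map_le_iff_le_comap, hQ𝔮]
  have h1 := (Ideal.ramificationIdx'_ne_one_iff hle).2 (Ideal.dvd_iff_le.1 hdvd)
  rw [Ideal.ramificationIdx'_eq_ramificationIdx (p := 𝔮) (q := Q) h0,
    ← card_inertia_over hQ0] at h1
  apply h1
  rw [Nat.card_eq_one_iff_unique]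
  refine ⟨⟨?_⟩, ⟨1⟩⟩
  have key : ∀ a : Q.inertia Gal(M/F), a = 1 := by
    rintro ⟨t, ht⟩
    have := h Q hQ hQ𝔮 (toG F M t) ht ⟨t, rfl⟩
    exact Subtype.ext (toG_injective (by rw [this]; exact (map_one _).symm))
  intro a b
  rw [key a, key b]

end card

end Pool.Agent.StarkU
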